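import Pool.Agent.Helper30.Guenin.Glue

/-!
The potential of a vertex, with values in `{0, …, k}`.
-/

namespace Pool.Agent.Helper30.Guenin

open Finset

variable {V : Type*} {k : ℕ} {R : V → V → Lab → Prop} {ρ : V → ZMod 2}

lemma int_parity (a : ℤ) : (a : ZMod 2) = 0 ↔ a % 2 = 0 := by
  rw [ZMod.intCast_zmod_eq_zero_iff_dvd]
  push_cast
  omega

lemma int_parity_eq (a b : ℤ) : (a : ZMod 2) = (b : ZMod 2) ↔ (a - b) % 2 = 0 := by
  rw [← int_parity, Int.cast_sub, sub_eq_zero]

lemma z2_eq_of_add {a b : ZMod 2} (h : a + b = 0) : a = b := by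
  revert a b; decide

lemma z2_eq_of_add' {a b : ZMod 2} (h : a + b = 1) : a = b + 1 := by
  revert a b; decide

lemma z2_sub (a b : ZMod 2) : a - b = a + b := by
  revert a b; decide

lemma z2_neg (a : ZMod 2) : -a = a := by
  revert a; decide

lemma z2_add_one_one (a : ZMod 2) : a + 1 + 1 = a := by
  revert a; decide

lemma z2_cancel (s x y : ZMod 2) : s + (x + s + y) = x + y := by
  revert s x y; decide

lemma z2_flip (e a b : ZMod 2) : e - (a + b + e * 1) = a + b := by
  revert e a b; decide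

/-- a parity correct value in `{c, c+1}` -/
lemma exists_parity (c : ℤ) (r : ZMod 2) : ∃ a : ℤ, (a : ZMod 2) = r ∧ c ≤ a ∧ a ≤ c + 1 := by
  rcases z2 ((c : ZMod 2) + r) with h | h
  · exact ⟨c, z2_eq_of_add h, le_refl _, by omega⟩
  · refine ⟨c + 1, ?_, by omega, le_refl _⟩
    have := z2_eq_of_add' h
    push_cast
    rw [this]
    exact z2_add_one_one r

lemma exists_center (h : Sys k R ρ) (hk : 1 ≤ k) (u : V) :
    ∃ c : V → ℤ, (∀ x, 0 ≤ c x ∧ c x ≤ k) ∧ (∀ x, (c x : ZMod 2) = ρ x + ρ u) ∧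
      (∀ x y n, R x y (0, n) → |c x - c y| ≤ n) ∧
      (∀ x y n, R x y (1, n) → |c x + c y - k| ≤ n) := by
  classical
  -- potential for the edges of length zero
  obtain ⟨σ, hσ⟩ := exists_potential (A := ZMod 2) (fun x y (s : ZMod 2) => R x y (s, 0))
    (fun x y s hr => ⟨s, h.symm _ _ _ hr⟩) (AddMonoidHom.id _) (by
      intro x s hw
      rcases z2 s with rfl | rfl
      · rfl
      · exfalso
        have hw' : Walk R x x ((AddMonoidHom.inl (ZMod 2) ℕ) 1) :=
          hw.map (AddMonoidHom.inl (ZMod 2) ℕ) (fun x y m hr => hr)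
        have := h.good x 0 hw'
        omega)
  have hσ' : ∀ x y s, R x y (s, 0) → s = σ x + σ y := by
    intro x y s hr
    have := hσ x y s hr
    simp only [AddMonoidHom.id_apply] at this
    rw [this, z2_sub, add_comm]
  -- parity of differences and sums
  have par0 : ∀ (c : V → ℤ), (∀ x, (c x : ZMod 2) = ρ x + ρ u) → ∀ x y n, R x y (0, n) →
      (c x - c y - n) % 2 = 0 := by
    intro c hc x y n hr
    have hp := h.par _ _ _ _ hr
    rw [← int_parity]
    push_cast
    rw [hc, hc, hp]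
    generalize ρ x = a; generalize ρ y = b; generalize ρ u = d
    revert a b d; simp only [mul_zero]; decide
  have par1 : ∀ (c : V → ℤ), (∀ x, (c x : ZMod 2) = ρ x + ρ u) → ∀ x y n, R x y (1, n) →
      (c x + c y - k - n) % 2 = 0 := by
    intro c hc x y n hr
    have hp := h.par _ _ _ _ hr
    rw [← int_parity]
    push_cast
    rw [hc, hc, hp]
    generalize ρ x = a; generalize ρ y = b; generalize ρ u = d; generalize (k : ZMod 2) = e
    revert a b d e; decide
  rcases Nat.even_or_odd k with hev | hodd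
  · obtain ⟨m, hm⟩ := hev
    have hex : ∀ x, ∃ c : ℤ, (c : ZMod 2) = ρ x + ρ u ∧
        (c = m ∨ (c = m + 1 ∧ σ x = 0) ∨ (c = m - 1 ∧ σ x = 1)) := by
      intro x
      rcases z2 ((m : ZMod 2) + (ρ x + ρ u)) with h1 | h1
      · exact ⟨m, by push_cast; exact z2_eq_of_add h1, Or.inl rfl⟩
      · have h2 := z2_eq_of_add' h1
        rcases z2 (σ x) with h3 | h3
        · refine ⟨m + 1, ?_, Or.inr (Or.inl ⟨rfl, h3⟩)⟩
          push_cast
          rw [h2]
          generalize ρ x + ρ u = a
          revert a; decide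
        · refine ⟨m - 1, ?_, Or.inr (Or.inr ⟨rfl, h3⟩)⟩
          push_cast
          rw [h2]
          ring
    choose c hc hcs using hex
    refine ⟨c, ?_, hc, ?_, ?_⟩
    · intro x
      rcases hcs x with h1 | ⟨h1, _⟩ | ⟨h1, _⟩ <;> omega
    · intro x y n hr
      have hp := par0 c hc x y n hr
      have h1 := hcs x
      have h2 := hcs y
      rw [abs_le]
      rcases Nat.eq_zero_or_pos n with rfl | hn
      · have h3 := hσ' _ _ _ hr
        have h4 : σ x = σ y := z2_eq_of_add h3.symm
        rw [h4] at h1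
        rcases h1 with h1 | ⟨h1, h5⟩ | ⟨h1, h5⟩ <;> rcases h2 with h2 | ⟨h2, h6⟩ | ⟨h2, h6⟩ <;>
          first
            | omega
            | (exact absurd (h5.symm.trans h6) (by decide))
      · rcases h1 with h1 | ⟨h1, h5⟩ | ⟨h1, h5⟩ <;> rcases h2 with h2 | ⟨h2, h6⟩ | ⟨h2, h6⟩ <;>
          omega
    · intro x y n hr
      have hp := par1 c hc x y n hr
      have h1 := hcs x
      have h2 := hcs y
      rw [abs_le]
      rcases Nat.eq_zero_or_pos n with rfl | hn
      · have h3 := hσ' _ _ _ hr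
        rcases h1 with h1 | ⟨h1, h5⟩ | ⟨h1, h5⟩ <;> rcases h2 with h2 | ⟨h2, h6⟩ | ⟨h2, h6⟩ <;>
          first
            | omega
            | (rw [h5, h6] at h3; exact absurd h3 (by decide))
      · rcases h1 with h1 | ⟨h1, h5⟩ | ⟨h1, h5⟩ <;> rcases h2 with h2 | ⟨h2, h6⟩ | ⟨h2, h6⟩ <;>
          omega
  · obtain ⟨m, hm⟩ := hodd
    have hex : ∀ x, ∃ c : ℤ, (c : ZMod 2) = ρ x + ρ u ∧ (m : ℤ) ≤ c ∧ c ≤ m + 1 := by
      intro x
      exact exists_parity m (ρ x + ρ u)
    choose c hc hc1 hc2 using hex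
    refine ⟨c, ?_, hc, ?_, ?_⟩
    · intro x
      have := hc1 x; have := hc2 x; omega
    · intro x y n hr
      have hp := par0 c hc x y n hr
      have := hc1 x; have := hc2 x; have := hc1 y; have := hc2 y
      rw [abs_le]
      omega
    · intro x y n hr
      have hp := par1 c hc x y n hr
      have := hc1 x; have := hc2 x; have := hc1 y; have := hc2 y
      rw [abs_le]
      omega

/-- The potential of the vertex `u`. -/
lemma exists_height (h : Sys k R ρ) (hk : 1 ≤ k) (u : V) :
    ∃ p : V → ℤ, (∀ x, 0 ≤ p x ∧ p x ≤ k) ∧ p u = 0 ∧ (∀ x, (p x : ZMod 2) = ρ x + ρ u) ∧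
      (∀ x y n, R x y (0, n) → |p x - p y| ≤ n) ∧
      (∀ x y n, R x y (1, n) → |p x + p y - k| ≤ n) := by
  classical
  obtain ⟨c, hc, hcp, hc0, hc1⟩ := exists_center h hk u
  -- distances in the double cover
  let S : V × ZMod 2 → V × ZMod 2 → ℤ → Prop := fun a b e =>
    ∃ (s : ZMod 2) (n : ℕ), R a.1 b.1 (s, n) ∧ b.2 = a.2 + s ∧ e = n
  have hlift : ∀ a b e, Walk S a b e → ∃ n : ℕ, e = n ∧ Walk R a.1 b.1 (a.2 + b.2, n) := by
    intro a b e hw
    induction hw with
    | nil a => exact ⟨0, rfl, by rw [z2_add_self]; exact Walk.nil _⟩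
    | @cons a b c m m' hs hw ih =>
      obtain ⟨s, n, hr, hb, rfl⟩ := hs
      obtain ⟨n', rfl, hw'⟩ := ih
      refine ⟨n + n', by push_cast; ring, ?_⟩
      have := Walk.cons hr hw'
      have e1 : s + (b.2 + c.2) = a.2 + c.2 := by
        rw [hb]
        exact z2_cancel _ _ _
      simpa [e1] using this
  have hKex : ∀ a : V × ZMod 2, ∃ K : ℤ, (K : ZMod 2) = ρ a.1 + ρ u + k * a.2 ∧ (k : ℤ) ≤ K ∧
      K ≤ k + 1 := fun a => exists_parity k _
  choose K hK1 hK2 hK3 using hKex
  obtain ⟨D, hD1, hD2, hD3⟩ := exists_min_potential S (fun a => if a = (u, 0) then 0 else K a)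
    (by
      intro a
      refine ⟨0, ?_⟩
      intro z e hw
      obtain ⟨n, rfl, _⟩ := hlift _ _ _ hw
      split_ifs
      · simp
      · have := hK2 z; omega)
  have hnonneg : ∀ a, 0 ≤ D a := by
    intro a
    obtain ⟨z, e, hw, he⟩ := hD3 a
    obtain ⟨n, rfl, _⟩ := hlift _ _ _ hw
    rw [he]
    split_ifs
    · simp
    · have := hK2 z; omega
  have hDu : D (u, 0) = 0 := by
    have h1 := hD2 (u, 0)
    have h2 := hnonneg (u, 0)
    simp only [if_true] at h1
    omega
  have hsum : ∀ x, (k : ℤ) ≤ D (x, 0) + D (x, 1) := by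
    intro x
    obtain ⟨z, e, hw, he⟩ := hD3 (x, 0)
    obtain ⟨z', e', hw', he'⟩ := hD3 (x, 1)
    have n0 := hnonneg (x, 0)
    have n1 := hnonneg (x, 1)
    obtain ⟨n, rfl, hr⟩ := hlift _ _ _ hw
    obtain ⟨n', rfl, hr'⟩ := hlift _ _ _ hw'
    by_cases hz : z = (u, 0)
    · by_cases hz' : z' = (u, 0)
      · subst hz; subst hz'
        simp only [if_true, zero_add] at he he' hr hr'
        have := h.good u (n' + n) (by
          have := hr'.trans (h.walk_symm hr)
          simpa using this)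
        omega
      · rw [if_neg hz'] at he'
        have := hK2 z'
        omega
    · rw [if_neg hz] at he
      have := hK2 z
      omega
  have hpar : ∀ a : V × ZMod 2, (D a : ZMod 2) = ρ a.1 + ρ u + k * a.2 := by
    intro a
    obtain ⟨z, e, hw, he⟩ := hD3 a
    obtain ⟨n, rfl, hr⟩ := hlift _ _ _ hw
    have hp := h.walk_par hr
    have hz : (((if z = (u, 0) then 0 else K z : ℤ)) : ZMod 2) = ρ z.1 + ρ u + k * z.2 := by
      split_ifs with hz
      · subst hz; simp [z2_add_self]
      · exact hK1 z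
    rw [he]
    push_cast
    push_cast at hz
    rw [hz, hp]
    generalize ρ z.1 = a1; generalize ρ u = a2; generalize ρ a.1 = a3; generalize z.2 = a4
    generalize a.2 = a5; generalize (k : ZMod 2) = a6
    revert a1 a2 a3 a4 a5 a6; decide
  have hstep : ∀ x y s n a, R x y (s, n) → D (y, a + s) ≤ D (x, a) + n := by
    intro x y s n a hr
    exact hD1 (x, a) (y, a + s) n ⟨s, n, hr, rfl, rfl⟩
  have e11 : (1 : ZMod 2) + 1 = 0 := by decide
  refine ⟨fun x => max (k - D (x, 1)) (min (c x) (D (x, 0))), ?_, ?_, ?_, ?_, ?_⟩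
  · intro x
    have := hc x; have := hnonneg (x, 0); have := hnonneg (x, 1)
    simp only
    omega
  · have := hc u; have := hsum u
    simp only [hDu] at *
    omega
  · intro x
    simp only
    have q1 : ((k - D (x, 1) : ℤ) : ZMod 2) = ρ x + ρ u := by
      push_cast
      rw [hpar (x, 1)]
      exact z2_flip _ _ _
    have q2 : ((D (x, 0) : ℤ) : ZMod 2) = ρ x + ρ u := by
      rw [hpar (x, 0)]; simp
    rcases max_choice (k - D (x, 1)) (min (c x) (D (x, 0))) with e | e <;> rw [e]
    · exact q1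
    · rcases min_choice (c x) (D (x, 0)) with e' | e' <;> rw [e']
      · exact hcp x
      · exact q2
  · intro x y n hr
    have hr' := h.symm _ _ _ hr
    have a1 := hstep x y 0 n 0 hr
    have a2 := hstep x y 0 n 1 hr
    have a3 := hstep y x 0 n 0 hr'
    have a4 := hstep y x 0 n 1 hr'
    simp only [add_zero] at a1 a2 a3 a4
    have b1 := hc0 x y n hr
    have s1 := hsum x; have s2 := hsum y
    rw [abs_le] at b1 ⊢
    simp only
    omega
  · intro x y n hr
    have hr' := h.symm _ _ _ hr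
    have a1 := hstep x y 1 n 0 hr
    have a2 := hstep x y 1 n 1 hr
    have a3 := hstep y x 1 n 0 hr'
    have a4 := hstep y x 1 n 1 hr'
    simp only [zero_add, e11] at a1 a2 a3 a4
    have b1 := hc1 x y n hr
    have s1 := hsum x; have s2 := hsum y
    rw [abs_le] at b1 ⊢
    simp only
    omega

end Pool.Agent.Helper30.Guenin
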