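import Pool.Agent.Helper30.Guenin.Apex1

/-!
The circular coordinate coming from a winding function.
-/

namespace Pool.Agent.Helper30.Guenin

open Finset

variable {V : Type*} {k : ℕ} {R : V → V → Lab → Prop} {ρ : V → ZMod 2}

/-- The circular coordinate. -/
lemma exists_circ [Finite V] (h : Sys k R ρ) (u : V) (w : V → V → ZMod 2 → ℤ)
    (hanti : ∀ x y s, w y x s = - w x y s)
    (hpar : ∀ x y s n, R x y (s, n) → x ≠ u → y ≠ u → (w x y s : ZMod 2) = s)
    (hcyc : ∀ (n : ℕ) (v : ℕ → V) (l : ℕ → Lab), 1 ≤ n →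
      IsSimpleClosed (fun x y m => R x y m ∧ x ≠ u ∧ y ≠ u) n v l →
      |∑ i ∈ range n, w (v i) (v (i + 1)) (l i).1| ≤ 1) :
    ∃ q : V → ℤ, (∀ x, (q x : ZMod 2) = ρ x + ρ u) ∧
      (∀ x y s n, R x y (s, n) → x ≠ u → y ≠ u → |q y - q x - k * w x y s| ≤ n) := by
  classical
  -- labelled relation with the winding number
  let T : V → V → (Lab × ℤ) → Prop := fun x y m =>
    R x y m.1 ∧ x ≠ u ∧ y ≠ u ∧ m.2 = w x y m.1.1
  have hTR : ∀ x y m, Walk T x y m → Walk R x y m.1 := by
    intro x y m hw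
    exact hw.map (AddMonoidHom.fst Lab ℤ) (fun x y m hr => hr.1)
  -- parity of the winding number
  have hTpar : ∀ x y m, Walk T x y m → (m.2 : ZMod 2) = m.1.1 := by
    intro x y m hw
    induction hw with
    | nil x => simp
    | @cons x y z m m' h1 h2 ih =>
      obtain ⟨⟨s, n⟩, o⟩ := m
      obtain ⟨h11, h12, h13, h14⟩ := h1
      simp only [Prod.fst_add, Prod.snd_add] at *
      push_cast
      rw [ih, h14, hpar x y s n h11 h12 h13]
  -- closed walks
  have hTcl : ∀ x m, Walk T x x m → (k : ℤ) * |m.2| ≤ m.1.2 := by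
    intro x m hw
    refine closed_decomp (P := fun m : Lab × ℤ => (k : ℤ) * |m.2| ≤ m.1.2) ?_ ?_ ?_ hw
    · simp
    · intro a b ha hb
      simp only [Prod.fst_add, Prod.snd_add] at *
      push_cast
      have h1 := abs_add_le a.2 b.2
      have h2 : (k : ℤ) * |a.2 + b.2| ≤ k * (|a.2| + |b.2|) :=
        mul_le_mul_of_nonneg_left h1 (by positivity)
      nlinarith
    · intro n v l hn hsc
      have hsc' : IsSimpleClosed (fun x y m => R x y m ∧ x ≠ u ∧ y ≠ u) n v
          (fun i => (l i).1) :=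
        ⟨hsc.closed, fun i hi => ⟨(hsc.step i hi).1, (hsc.step i hi).2.1, (hsc.step i hi).2.2.1⟩,
          hsc.inj⟩
      have hb := hcyc n v _ hn hsc'
      have hsum : (∑ i ∈ range n, l i).2 = ∑ i ∈ range n, w (v i) (v (i + 1)) (l i).1.1 := by
        rw [Prod.snd_sum]
        apply Finset.sum_congr rfl
        intro i hi
        exact (hsc.step i (Finset.mem_range.mp hi)).2.2.2
      -- the closed walk
      have hwalk : ∀ j ≤ n, Walk T (v 0) (v j) (∑ i ∈ range j, l i) := by
        intro j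
        induction j with
        | zero => intro _; simp only [Finset.range_zero, Finset.sum_empty]; exact Walk.nil _
        | succ j ih =>
          intro hj
          rw [Finset.sum_range_succ]
          exact (ih (by omega)).trans (Walk.single (hsc.step j (by omega)))
      have hcw := hwalk n (le_refl _)
      rw [hsc.closed] at hcw
      have hp := hTpar _ _ _ hcw
      have hR := hTR _ _ _ hcw
      rw [← hsum] at hb
      generalize (∑ i ∈ range n, l i) = m at *
      obtain ⟨⟨s, len⟩, o⟩ := m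
      simp only at *
      by_cases ho : o = 0
      · subst ho; simp
      · have hs : s = 1 := by
          rcases z2 s with hs | hs
          · rw [hs, int_parity] at hp
            rw [abs_le] at hb
            omega
          · exact hs
        subst hs
        have hg := h.good _ _ hR
        have : |o| = 1 := by
          have := abs_pos.mpr ho
          omega
        rw [this]
        have : (k : ℤ) ≤ len := by exact_mod_cast hg
        linarith
  -- costs
  let Q : V → V → ℤ → Prop := fun x y c =>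
    ∃ s n, R x y (s, n) ∧ x ≠ u ∧ y ≠ u ∧ c = n + k * w x y s
  have hlift : ∀ x y c, Walk Q x y c → ∃ m, Walk T x y m ∧ c = m.1.2 + k * m.2 := by
    intro x y c hw
    induction hw with
    | nil x => exact ⟨0, Walk.nil x, by simp⟩
    | @cons x y z c c' h1 h2 ih =>
      obtain ⟨s, n, hr, hx, hy, rfl⟩ := h1
      obtain ⟨m, hm, rfl⟩ := ih
      refine ⟨((s, n), w x y s) + m, Walk.cons ⟨hr, hx, hy, rfl⟩ hm, ?_⟩
      simp only [Prod.fst_add, Prod.snd_add]
      push_cast
      ring
  have hQrev : ∀ x y c, Walk Q x y c → ∃ c', Walk Q y x c' := by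
    intro x y c hw
    induction hw with
    | nil x => exact ⟨0, Walk.nil x⟩
    | @cons x y z c c' h1 h2 ih =>
      obtain ⟨s, n, hr, hx, hy, rfl⟩ := h1
      obtain ⟨c'', hc''⟩ := ih
      exact ⟨_, hc''.trans (Walk.single ⟨s, n, h.symm _ _ _ hr, hy, hx, rfl⟩)⟩
  have hQcl : ∀ x c, Walk Q x x c → 0 ≤ c := by
    intro x c hw
    obtain ⟨m, hm, rfl⟩ := hlift _ _ _ hw
    have h1 := hTcl _ _ hm
    have h2 : -|m.2| ≤ m.2 := neg_abs_le _
    have h3 : (k : ℤ) * (-|m.2|) ≤ k * m.2 := mul_le_mul_of_nonneg_left h2 (by positivity)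
    linarith
  have hHex : ∀ x, ∃ a : ℤ, (a : ZMod 2) = ρ x + ρ u ∧ 0 ≤ a ∧ a ≤ 0 + 1 := fun x =>
    exists_parity 0 _
  choose H hH1 hH2 hH3 using hHex
  obtain ⟨q, hq1, hq2, hq3⟩ := exists_min_potential Q H (by
    intro x
    have hz : ∀ z, ∃ B : ℤ, ∀ c, Walk Q z x c → B ≤ c := by
      intro z
      by_cases hex : ∃ c, Walk Q z x c
      · obtain ⟨c, hc⟩ := hex
        obtain ⟨c', hc'⟩ := hQrev _ _ _ hc
        refine ⟨-c', ?_⟩
        intro c'' hw
        have := hQcl _ _ (hw.trans hc')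
        linarith
      · exact ⟨0, fun c hc => absurd ⟨c, hc⟩ hex⟩
    choose B hB using hz
    obtain ⟨B0, hB0⟩ := (Set.finite_range B).bddBelow
    refine ⟨B0, ?_⟩
    intro z c hw
    have h1 := hB z c hw
    have h2 := hB0 ⟨z, rfl⟩
    have h3 := hH2 z
    linarith)
  refine ⟨q, ?_, ?_⟩
  · intro x
    obtain ⟨z, c, hw, he⟩ := hq3 x
    obtain ⟨m, hm, rfl⟩ := hlift _ _ _ hw
    have h1 := h.walk_par (hTR _ _ _ hm)
    have h2 := hTpar _ _ _ hm
    rw [he]
    push_cast
    rw [hH1, h1, h2]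
    generalize ρ z = a1; generalize ρ u = a2; generalize ρ x = a3; generalize m.1.1 = a4
    generalize (k : ZMod 2) = a5
    revert a1 a2 a3 a4 a5; decide
  · intro x y s n hr hx hy
    have h1 := hq1 x y _ ⟨s, n, hr, hx, hy, rfl⟩
    have h2 := hq1 y x _ ⟨s, n, h.symm _ _ _ hr, hy, hx, rfl⟩
    rw [hanti x y s] at h2
    rw [abs_le]
    constructor <;> nlinarith

end Pool.Agent.Helper30.Guenin
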