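import Pool.Agent.Helper30.Guenin.Apex2

/-!
Cyclic intervals, and the packing of a system with an apex.
-/

namespace Pool.Agent.Helper30.Guenin

open Finset

section intervals

variable {k : ℕ} [NeZero k]

/-- residues modulo `k` -/
noncomputable def res (k : ℕ) [NeZero k] (j : ℤ) : Fin k := (ZMod.finEquiv k).symm (j : ZMod k)

lemma res_eq_iff (i j : ℤ) : res k i = res k j ↔ (k : ℤ) ∣ i - j := by
  unfold res
  rw [(ZMod.finEquiv k).symm.injective.eq_iff, ← sub_eq_zero, ← Int.cast_sub,
    ZMod.intCast_zmod_eq_zero_iff_dvd]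

lemma res_add_mul (j t : ℤ) : res k (j + k * t) = res k j := by
  rw [res_eq_iff]
  exact ⟨t, by ring⟩

/-- cyclic intervals -/
noncomputable def itv (k : ℕ) [NeZero k] (a b : ℤ) : Finset (Fin k) := (Finset.Ico a b).image (res k)

lemma mem_itv {a b : ℤ} {x : Fin k} : x ∈ itv k a b ↔ ∃ j, a ≤ j ∧ j < b ∧ res k j = x := by
  unfold itv
  simp only [Finset.mem_image, Finset.mem_Ico, and_assoc]

lemma itv_shift (a b t : ℤ) : itv k (a + k * t) (b + k * t) = itv k a b := by
  ext x
  rw [mem_itv, mem_itv]
  constructor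
  · rintro ⟨j, h1, h2, h3⟩
    refine ⟨j + k * (-t), by linarith, by linarith, ?_⟩
    rw [res_add_mul, h3]
  · rintro ⟨j, h1, h2, h3⟩
    refine ⟨j + k * t, by linarith, by linarith, ?_⟩
    rw [res_add_mul, h3]

lemma card_itv_le (a b : ℤ) : (itv k a b).card ≤ (b - a).toNat := by
  unfold itv
  refine (Finset.card_image_le).trans ?_
  rw [Int.card_Ico]

lemma card_symmDiff_itv (a b a' b' : ℤ) :
    (symmDiff (itv k a b) (itv k a' b')).card ≤ (a - a').natAbs + (b - b').natAbs := by
  have hsub : symmDiff (itv k a b) (itv k a' b') ⊆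
      (Finset.Ico (min a a') (max a a')).image (res k) ∪
      (Finset.Ico (min b b') (max b b')).image (res k) := by
    intro x hx
    rw [Finset.mem_symmDiff] at hx
    rw [Finset.mem_union, Finset.mem_image, Finset.mem_image]
    rcases hx with ⟨h1, h2⟩ | ⟨h1, h2⟩
    · rw [mem_itv] at h1 h2
      obtain ⟨j, h3, h4, h5⟩ := h1
      by_cases h6 : a' ≤ j
      · right
        refine ⟨j, ?_, h5⟩
        have h7 : b' ≤ j := by
          by_contra h7
          exact h2 ⟨j, h6, by omega, h5⟩
        rw [Finset.mem_Ico]; omega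
      · left
        refine ⟨j, ?_, h5⟩
        rw [Finset.mem_Ico]; omega
    · rw [mem_itv] at h1 h2
      obtain ⟨j, h3, h4, h5⟩ := h1
      by_cases h6 : a ≤ j
      · right
        refine ⟨j, ?_, h5⟩
        have h7 : b ≤ j := by
          by_contra h7
          exact h2 ⟨j, h6, by omega, h5⟩
        rw [Finset.mem_Ico]; omega
      · left
        refine ⟨j, ?_, h5⟩
        rw [Finset.mem_Ico]; omega
  refine (Finset.card_le_card hsub).trans ((Finset.card_union_le _ _).trans ?_)
  have h1 := Finset.card_image_le (s := Finset.Ico (min a a') (max a a')) (f := res k)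
  have h2 := Finset.card_image_le (s := Finset.Ico (min b b') (max b b')) (f := res k)
  rw [Int.card_Ico] at h1 h2
  omega

lemma exists_res (a : ℤ) (x : Fin k) : ∃ j, a ≤ j ∧ j < a + k ∧ res k j = x := by
  have hk : (0 : ℤ) < k := by exact_mod_cast Nat.pos_of_ne_zero (NeZero.ne k)
  obtain ⟨i, hi⟩ : ∃ i : ℤ, res k i = x := by
    obtain ⟨i, hi⟩ := ZMod.intCast_surjective (ZMod.finEquiv k x)
    refine ⟨i, ?_⟩
    unfold res
    rw [hi]; simp
  refine ⟨a + (i - a) % k, ?_, ?_, ?_⟩
  · have := Int.emod_nonneg (i - a) hk.ne'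
    omega
  · have := Int.emod_lt_of_pos (i - a) hk
    omega
  · rw [← hi, res_eq_iff]
    refine ⟨-((i - a) / k), ?_⟩
    have := Int.emod_add_mul_ediv (i - a) k
    linarith

lemma compl_itv {a b : ℤ} (_h1 : a ≤ b) (_h2 : b ≤ a + k) : (itv k a b)ᶜ = itv k b (a + k) := by
  have hk : (0 : ℤ) < k := by exact_mod_cast Nat.pos_of_ne_zero (NeZero.ne k)
  ext x
  rw [Finset.mem_compl]
  constructor
  · intro hx
    obtain ⟨j, h3, h4, h5⟩ := exists_res a x
    rw [mem_itv]
    refine ⟨j, ?_, h4, h5⟩
    by_contra h6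
    exact hx (mem_itv.mpr ⟨j, h3, by omega, h5⟩)
  · intro hx hx'
    rw [mem_itv] at hx hx'
    obtain ⟨j, h3, h4, h5⟩ := hx
    obtain ⟨j', h3', h4', h5'⟩ := hx'
    rw [← h5', res_eq_iff] at h5
    obtain ⟨t, ht⟩ := h5
    have h6 : 0 < (k : ℤ) * t := by omega
    have h7 : (k : ℤ) * t < k := by omega
    have h8 : 0 < t := by
      by_contra h8
      have : (k : ℤ) * t ≤ 0 := mul_nonpos_of_nonneg_of_nonpos hk.le (by omega)
      omega
    have h9 : (k : ℤ) * 1 ≤ k * t := mul_le_mul_of_nonneg_left (by omega) hk.le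
    omega

omit [NeZero k] in
lemma card_symmDiff_compl (A B : Finset (Fin k)) :
    (symmDiff A B).card + (symmDiff A Bᶜ).card = k := by
  have : symmDiff A Bᶜ = (symmDiff A B)ᶜ := by
    ext x
    simp only [Finset.mem_symmDiff, Finset.mem_compl]
    tauto
  rw [this, Finset.card_add_card_compl, Fintype.card_fin]

end intervals

variable {V : Type*} {k : ℕ} {R : V → V → Lab → Prop} {ρ : V → ZMod 2}

/-- Packing of a system with an apex `u` outside of which there is a circular coordinate. -/
lemma pack_of_circ (h : Sys k R ρ) (hk : 1 ≤ k) (u : V) (q : V → ℤ)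
    (hqp : ∀ x, (q x : ZMod 2) = ρ x + ρ u)
    (hq : ∀ x y s n, R x y (s, n) → x ≠ u → y ≠ u →
      ∃ w : ℤ, (w : ZMod 2) = s ∧ |q y - q x - k * w| ≤ n) :
    ∃ f : V → Finset (Fin k), Pack k R f := by
  classical
  have : NeZero k := ⟨by omega⟩
  obtain ⟨p, hp, hpu, hpp, hp0, hp1⟩ := exists_height h hk u
  -- endpoints
  have hab : ∀ x, ∃ a b : ℤ, b - a = p x ∧ a + b = q x := by
    intro x
    have hx : (q x - p x) % 2 = 0 := by
      rw [← int_parity_eq, hqp, hpp]
    exact ⟨(q x - p x) / 2, (q x + p x) / 2, by omega, by omega⟩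
  choose a b hba haq using hab
  have hcompl : ∀ x, (itv k (a x) (b x))ᶜ = itv k (b x) (a x + k) := by
    intro x
    have := hp x; have := hba x
    exact compl_itv (by omega) (by omega)
  refine ⟨fun x => if x = u then ∅ else itv k (a x) (b x), ?_⟩
  -- edges at u
  have hu0 : ∀ y n, R u y (0, n) → (itv k (a y) (b y)).card ≤ n := by
    intro y n hr
    have h1 := hp0 u y n hr
    rw [hpu, abs_le] at h1
    have h2 := card_itv_le (k := k) (a y) (b y)
    have h3 := hba y
    omega
  have hu1 : ∀ y n, R u y (1, n) → k ≤ (itv k (a y) (b y)).card + n := by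
    intro y n hr
    have h1 := hp1 u y n hr
    rw [hpu, abs_le] at h1
    have h2 := card_itv_le (k := k) (b y) (a y + k)
    rw [← hcompl] at h2
    have h4 := Finset.card_add_card_compl (itv k (a y) (b y))
    rw [Fintype.card_fin] at h4
    have h3 := hba y
    have := hp y
    omega
  have hbot : ∀ A : Finset (Fin k), symmDiff ∅ A = A := by
    intro A; ext i; simp [Finset.mem_symmDiff]
  have hbot' : ∀ A : Finset (Fin k), symmDiff A ∅ = A := by
    intro A; ext i; simp [Finset.mem_symmDiff]
  intro x y n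
  constructor
  · intro hr
    by_cases hx : x = u
    · by_cases hy : y = u
      · simp [hx, hy]
      · simp only [hx, hy, if_true, if_false, hbot]
        rw [hx] at hr
        exact hu0 y n hr
    · by_cases hy : y = u
      · simp only [hx, hy, if_true, if_false, hbot']
        rw [hy] at hr
        exact hu0 x n (h.symm _ _ _ hr)
      · simp only [hx, hy, if_false]
        -- shift by the winding number
        obtain ⟨w, hw, h1⟩ := hq x y 0 n hr hx hy
        rw [int_parity] at hw
        obtain ⟨t, rfl⟩ : ∃ t, w = 2 * t := ⟨w / 2, by omega⟩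
        have h2 := hp0 x y n hr
        have h3 : (k : ℤ) * (2 * t) = 2 * (k * t) := by ring
        rw [h3] at h1
        rw [← itv_shift (k := k) (a y) (b y) (-t)]
        refine (card_symmDiff_itv (k := k) _ _ _ _).trans ?_
        have h4 : (k : ℤ) * (-t) = - (k * t) := by ring
        rw [h4]
        generalize (k : ℤ) * t = K at *
        have := hba x; have := hba y; have := haq x; have := haq y
        rw [abs_le] at h1 h2
        omega
  · intro hr
    by_cases hx : x = u
    · by_cases hy : y = u
      · have := h.good u n (by rw [hx, hy] at hr; exact Walk.single hr)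
        simp only [hx, hy, if_true]
        omega
      · simp only [hx, hy, if_true, if_false, hbot]
        rw [hx] at hr
        exact hu1 y n hr
    · by_cases hy : y = u
      · simp only [hx, hy, if_true, if_false, hbot']
        rw [hy] at hr
        exact hu1 x n (h.symm _ _ _ hr)
      · simp only [hx, hy, if_false]
        obtain ⟨w, hw, h1⟩ := hq x y 1 n hr hx hy
        have hw2 : (w - 1) % 2 = 0 := by
          rw [← int_parity_eq]; push_cast; exact hw
        obtain ⟨t, rfl⟩ : ∃ t, w = 2 * t + 1 := ⟨(w - 1) / 2, by omega⟩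
        have h2 := hp1 x y n hr
        have h3 : (k : ℤ) * (2 * t + 1) = 2 * (k * t) + k := by ring
        rw [h3] at h1
        have hc := card_symmDiff_compl (itv k (a x) (b x)) (itv k (a y) (b y))
        rw [hcompl, ← itv_shift (k := k) (b y) (a y + k) (-(t + 1))] at hc
        have h5 := card_symmDiff_itv (k := k) (a x) (b x) (b y + k * (-(t + 1)))
          (a y + k + k * (-(t + 1)))
        have h4 : (k : ℤ) * (-(t + 1)) = - (k * t) - k := by ring
        rw [h4] at h5 hc
        generalize (k : ℤ) * t = K at *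
        have := hba x; have := hba y; have := haq x; have := haq y
        rw [abs_le] at h1 h2
        omega

/-- Packing of a system with an apex `u` outside of which there is a winding function. -/
lemma pack_apex [Finite V] (h : Sys k R ρ) (hk : 1 ≤ k) (u : V) (w : V → V → ZMod 2 → ℤ)
    (hanti : ∀ x y s, w y x s = - w x y s)
    (hpar : ∀ x y s n, R x y (s, n) → x ≠ u → y ≠ u → (w x y s : ZMod 2) = s)
    (hcyc : ∀ (n : ℕ) (v : ℕ → V) (l : ℕ → Lab), 1 ≤ n →
      IsSimpleClosed (fun x y m => R x y m ∧ x ≠ u ∧ y ≠ u) n v l →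
      |∑ i ∈ range n, w (v i) (v (i + 1)) (l i).1| ≤ 1) :
    ∃ f : V → Finset (Fin k), Pack k R f := by
  obtain ⟨q, hqp, hq⟩ := exists_circ h u w hanti hpar hcyc
  exact pack_of_circ h hk u q hqp
    (fun x y s n hr hx hy => ⟨w x y s, hpar x y s n hr hx hy, hq x y s n hr hx hy⟩)

end Pool.Agent.Helper30.Guenin
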