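import Pool.Agent.Helper30.Guenin.Hom

/-!
If deleting a vertex leaves a signed graph which maps to the unbalanced cycle of length `d + 1`,
then the signed graph maps to the signed projective cube of dimension `d`.
-/

namespace Pool.Agent.Helper30.Guenin

open Finset

/-- `G - u`: the vertex `u` and all edges at `u` are deleted. -/
def SGraph.del {V E : Type*} (G : SGraph V E) (u : V) :
    SGraph {x : V // x ≠ u} {e : E // u ∉ G.ends e} where
  ends e := (G.ends e.1).attachWith (P := fun x => x ≠ u) (fun x hx h => e.2 (h ▸ hx))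
  loopless := by
    rintro ⟨e, he⟩ h
    apply G.loopless e
    have := Sym2.IsDiag.map (f := Subtype.val) h
    rwa [Sym2.attachWith_map_subtypeVal] at this
  neg := {e | e.1 ∈ G.neg}

lemma zmod_one_ne_zero (d : ℕ) [NeZero d] : (1 : ZMod (d + 1)) ≠ 0 := by
  have hd : d ≠ 0 := NeZero.ne d
  intro h
  have h1 : ((1 : ℕ) : ZMod (d + 1)) = 0 := by push_cast; exact h
  rw [ZMod.natCast_eq_zero_iff] at h1
  have := Nat.le_of_dvd one_pos h1
  omega

/-- The unbalanced cycle of length `d + 1`: the edges `{i, i + 1}` for `i` modulo `d + 1`, with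
the edge `{-1, 0}` negative and all others positive. -/
def negCycle (d : ℕ) [NeZero d] : SGraph (ZMod (d + 1)) (ZMod (d + 1)) where
  ends i := s(i, i + 1)
  loopless := by
    intro i h
    rw [Sym2.mk_isDiag_iff] at h
    exact zmod_one_ne_zero d (by simpa using h.symm)
  neg := {-1}

lemma val_succ (d : ℕ) [NeZero d] (i : ZMod (d + 1)) :
    ((i + 1).val : ℤ) - i.val = 1 - (d + 1) * (if i = -1 then 1 else 0) := by
  have hd : d ≠ 0 := NeZero.ne d
  have h1 : (1 : ZMod (d + 1)).val = 1 := by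
    have := ZMod.val_natCast (d + 1) 1
    rw [Nat.cast_one, Nat.mod_eq_of_lt (by omega)] at this
    exact this
  have hi := ZMod.val_lt i
  rw [ZMod.val_add, h1]
  by_cases h : i = -1
  · have h2 : i.val = d := by
      rw [h, ZMod.neg_val, if_neg (zmod_one_ne_zero d), h1]; omega
    rw [if_pos h, h2, Nat.mod_self]
    push_cast; ring
  · have h2 : i.val ≠ d := by
      intro h2
      apply h
      apply ZMod.val_injective (d + 1)
      rw [h2, ZMod.neg_val, if_neg (zmod_one_ne_zero d), h1]; omega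
    rw [if_neg h, Nat.mod_eq_of_lt (by omega)]
    push_cast; ring

variable {V E : Type*}

lemma mem_cut_iff (G : SGraph V E) (X : Set V) {e : E} {x y : V} (he : G.ends e = s(x, y)) :
    e ∈ G.cut X ↔ ¬ (x ∈ X ↔ y ∈ X) := by
  constructor
  · rintro ⟨a, ha, b, hb, hab⟩
    rw [he, Sym2.eq_iff] at hab
    rcases hab with ⟨rfl, rfl⟩ | ⟨rfl, rfl⟩
    · exact fun h => hb (h.mp ha)
    · exact fun h => hb (h.mpr ha)
  · intro h
    by_cases hx : x ∈ X
    · have hy : y ∉ X := fun hy => h ⟨fun _ => hy, fun _ => hx⟩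
      exact ⟨x, hx, y, hy, he⟩
    · have hy : y ∈ X := by
        by_contra hy
        exact h ⟨fun h' => absurd h' hx, fun h' => absurd h' hy⟩
      exact ⟨y, hy, x, hx, by rw [he, Sym2.eq_swap]⟩

lemma sign_aux1 {N I a b c d : Prop}
    (h : (N ∧ ¬¬(a ↔ b) ∨ ¬(a ↔ b) ∧ ¬N) ↔ (I ∧ ¬¬(c ↔ d) ∨ ¬(c ↔ d) ∧ ¬I)) :
    N ↔ (I ↔ ((a ↔ c) ↔ (b ↔ d))) := by
  by_cases hN : N <;> by_cases hI : I <;> by_cases ha : a <;> by_cases hb : b <;>
    by_cases hc : c <;> by_cases hd : d <;> simp_all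

lemma sign_aux2 {N I P Q : Prop} [Decidable I] [Decidable P] [Decidable Q] {s : ZMod 2}
    (hs : s = 1 ↔ N) (h : N ↔ (I ↔ (P ↔ Q))) {a : ℤ} (ha : a = 1 ∨ a = -1) :
    ((a * (if I then 1 else 0) + (if Q then 0 else 1) - (if P then 0 else 1) : ℤ) : ZMod 2) =
      s := by
  classical
  have hs' : s = if N then 1 else 0 := by
    rcases z2 s with h0 | h0
    · have hn : ¬ N := fun hn => by rw [hs.mpr hn] at h0; exact absurd h0 (by decide)
      rw [if_neg hn, h0]
    · rw [if_pos (hs.mp h0), h0]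
  rw [hs']
  rcases ha with rfl | rfl <;> by_cases hI : I <;> by_cases hP : P <;> by_cases hQ : Q <;>
    simp [hI, hP, hQ] at h ⊢ <;> simp [h] <;> decide

/-- **Theorem.** Let `G` be consistent of unbalanced girth `k`, let `d + 1 ≤ k` have the parity of
`k`, and suppose that `G - u` maps to the unbalanced cycle of length `d + 1`. Then `G` maps to the
signed projective cube of dimension `d`. -/
theorem apex_mapsTo (G : SGraph V E) (k d : ℕ) [NeZero d] (hc : G.Consistent)
    (hg : G.UnbGirth k) (hdk : d + 1 ≤ k) (hpar : (d + 1) % 2 = k % 2) (u : V)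
    (hu : (G.del u).MapsTo (negCycle d)) : G.MapsTo (SPC d) := by
  classical
  obtain ⟨ρ, hS0⟩ := exists_sys G k hc hg
  have hkp : ((d + 1 : ℕ) : ZMod 2) = (k : ZMod 2) := by
    rw [← ZMod.natCast_mod (d + 1) 2, hpar, ZMod.natCast_mod]
  have hS : Sys (d + 1) (GRel G) ρ := by
    refine ⟨hS0.symm, fun x n hw => hdk.trans (hS0.good x n hw), ?_⟩
    intro x y s n hr
    rw [hkp]
    exact hS0.par x y s n hr
  obtain ⟨X, Y, φ, ψ, h1, h2⟩ := hu
  -- the integer coordinate
  let χ : V → ℤ := fun x => if hx : x ≠ u then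
    (if (((⟨x, hx⟩ : {x : V // x ≠ u}) ∈ X) ↔ φ ⟨x, hx⟩ ∈ Y) then 0 else 1) else 0
  let q : V → ℤ := fun x => if hx : x ≠ u then ((φ ⟨x, hx⟩).val : ℤ) + (d + 1) * χ x else 0
  have hq : ∀ x y s n, GRel G x y (s, n) → x ≠ u → y ≠ u →
      ∃ w : ℤ, (w : ZMod 2) = s ∧ |q y - q x - ((d + 1 : ℕ) : ℤ) * w| = 1 := by
    intro x y s n hr hx hy
    obtain ⟨⟨e, he, hs⟩, _⟩ := hr
    simp only at hs he
    have heu : u ∉ G.ends e := by
      rw [he, Sym2.mem_iff]
      rintro (h | h)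
      · exact hx h.symm
      · exact hy h.symm
    have hends : (G.del u).ends ⟨e, heu⟩ = s(⟨x, hx⟩, ⟨y, hy⟩) := by
      apply Sym2.map.injective Subtype.val_injective
      show ((G.ends e).attachWith _).map Subtype.val = _
      rw [Sym2.attachWith_map_subtypeVal, he, Sym2.map_mk]
    have h3 := h1 ⟨e, heu⟩
    rw [hends, Sym2.map_mk] at h3
    have h4 := h2 ⟨e, heu⟩
    rw [Set.mem_symmDiff, Set.mem_symmDiff, mem_cut_iff _ _ hends] at h4
    have h5 : (⟨e, heu⟩ : {e : E // u ∉ G.ends e}) ∈ (G.del u).neg ↔ e ∈ G.neg := Iff.rfl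
    have h6 : ψ ⟨e, heu⟩ ∈ (negCycle d).neg ↔ ψ ⟨e, heu⟩ = -1 := Iff.rfl
    rw [h5, h6] at h4
    set i := ψ ⟨e, heu⟩ with hi
    have h7 : (negCycle d).ends i = s(i, i + 1) := rfl
    have h8 : i ∈ (negCycle d).cut Y ↔ ¬ (φ ⟨x, hx⟩ ∈ Y ↔ φ ⟨y, hy⟩ ∈ Y) := by
      apply mem_cut_iff
      rw [h3]
    rw [h8] at h4
    have hvs := val_succ d i
    have hqx : q x = ((φ ⟨x, hx⟩).val : ℤ) + (d + 1) * χ x := by simp only [q, dif_pos hx]
    have hqy : q y = ((φ ⟨y, hy⟩).val : ℤ) + (d + 1) * χ y := by simp only [q, dif_pos hy]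
    have hχx : χ x = if ((⟨x, hx⟩ : {x : V // x ≠ u}) ∈ X ↔ φ ⟨x, hx⟩ ∈ Y) then 0 else 1 := by
      simp only [χ, dif_pos hx]
    have hχy : χ y = if ((⟨y, hy⟩ : {x : V // x ≠ u}) ∈ X ↔ φ ⟨y, hy⟩ ∈ Y) then 0 else 1 := by
      simp only [χ, dif_pos hy]
    -- the sign
    have hsign : ∀ a : ℤ, (a = 1 ∨ a = -1) →
        ((a * (if i = -1 then 1 else 0) + χ y - χ x : ℤ) : ZMod 2) = s := by
      intro a ha
      rw [hχx, hχy]
      exact sign_aux2 hs (sign_aux1 h4) ha
    have h9 : (negCycle d).ends i = s(φ ⟨x, hx⟩, φ ⟨y, hy⟩) := h3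
    rw [h7, Sym2.eq_iff] at h9
    rcases h9 with ⟨e1, e2⟩ | ⟨e1, e2⟩
    · refine ⟨_, hsign (-1) (Or.inr rfl), ?_⟩
      rw [hqx, hqy, ← e1, ← e2]
      have : ((i + 1).val : ℤ) + (d + 1) * χ y - (i.val + (d + 1) * χ x) -
          ((d + 1 : ℕ) : ℤ) * (-1 * (if i = -1 then 1 else 0) + χ y - χ x) = 1 := by
        push_cast
        linear_combination hvs
      rw [this]; simp
    · refine ⟨_, hsign 1 (Or.inl rfl), ?_⟩
      rw [hqx, hqy, ← e1, ← e2]
      have : (i.val : ℤ) + (d + 1) * χ y - ((i + 1).val + (d + 1) * χ x) -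
          ((d + 1 : ℕ) : ℤ) * (1 * (if i = -1 then 1 else 0) + χ y - χ x) = -1 := by
        push_cast
        linear_combination -hvs
      rw [this]; simp
  -- parity correction
  have hcex : ∀ x, ∃ c : ℤ, (c = 0 ∨ c = 1) ∧ ((q x + c : ℤ) : ZMod 2) = ρ x + ρ u := by
    intro x
    rcases z2 ((q x : ZMod 2) + (ρ x + ρ u)) with h | h
    · exact ⟨0, Or.inl rfl, by push_cast; rw [add_zero]; exact z2_eq_of_add h⟩
    · refine ⟨1, Or.inr rfl, ?_⟩
      push_cast
      rw [z2_eq_of_add' h]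
      exact z2_add_one_one _
  choose c hc01 hcp using hcex
  obtain ⟨f, hf⟩ := pack_of_circ hS (by omega) u (fun x => q x + c x) hcp (by
    intro x y s n hr hx hy
    obtain ⟨w, hw, hqw⟩ := hq x y s n hr hx hy
    refine ⟨w, hw, ?_⟩
    have hn : n = 1 := hr.2
    -- c x = c y
    have hcc : c x = c y := by
      have p1 := hcp x
      have p2 := hcp y
      have p3 := hS.par x y s n hr
      have p4 : ((q y - q x - ((d + 1 : ℕ) : ℤ) * w : ℤ) : ZMod 2) = 1 := by
        have : (q y - q x - ((d + 1 : ℕ) : ℤ) * w) = 1 ∨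
            (q y - q x - ((d + 1 : ℕ) : ℤ) * w) = -1 := by
          rcases abs_eq (zero_le_one) |>.mp hqw with h | h
          · exact Or.inl h
          · exact Or.inr h
        rcases this with h | h <;> rw [h] <;> decide
      subst hn
      have p5 : ((c x - c y : ℤ) : ZMod 2) = 0 := by
        have t1 := z2_add_self (ρ x)
        have t2 := z2_add_self (ρ y)
        have two : (2 : ZMod 2) = 0 := by decide
        push_cast at p1 p2 p3 p4 ⊢
        rw [hw] at p4
        linear_combination p1 - p2 + p4 + p3 + (ρ x + (d + 1) * s) * two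
      rw [int_parity] at p5
      rcases hc01 x with h1 | h1 <;> rcases hc01 y with h2 | h2 <;> rw [h1, h2] at p5 ⊢ <;> omega
    subst hn
    have : q y + c y - (q x + c x) - ((d + 1 : ℕ) : ℤ) * w =
        q y - q x - ((d + 1 : ℕ) : ℤ) * w := by rw [hcc]; ring
    show |q y + c y - (q x + c x) - ((d + 1 : ℕ) : ℤ) * w| ≤ _
    rw [this, hqw]
    simp)
  obtain ⟨g, hg'⟩ := exists_exact G (by omega) hS hf
  exact mapsTo_of_exact G d g hg'

end Pool.Agent.Helper30.Guenin
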