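import Pool.Agent.Helper30.Guenin.Walk

/-!
Decomposition of closed walks into closed walks without repeated vertices.
-/

namespace Pool.Agent.Helper30.Guenin

open Finset

/-- A closed walk with `n` steps (vertices `v 0, …, v n = v 0`, labels `l 0, …, l (n-1)`) whose
vertices `v 0, …, v (n-1)` are distinct. -/
structure IsSimpleClosed {V M : Type*} (R : V → V → M → Prop) (n : ℕ) (v : ℕ → V) (l : ℕ → M) :
    Prop where
  closed : v n = v 0
  step : ∀ i < n, R (v i) (v (i + 1)) (l i)
  inj : ∀ i < n, ∀ j < n, v i = v j → i = j

variable {V M : Type*} [AddCommMonoid M] {R : V → V → M → Prop}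

lemma Walk.exists_fun {x y : V} {m : M} (h : Walk R x y m) :
    ∃ (n : ℕ) (v : ℕ → V) (l : ℕ → M), v 0 = x ∧ v n = y ∧ (∀ i < n, R (v i) (v (i + 1)) (l i)) ∧
      m = ∑ i ∈ range n, l i := by
  induction h with
  | nil x => exact ⟨0, fun _ => x, fun _ => 0, rfl, rfl, fun i hi => absurd hi (Nat.not_lt_zero i), by simp⟩
  | @cons x y z m m' h1 h2 ih =>
    obtain ⟨n, v, l, h0, hn, hs, hm⟩ := ih
    refine ⟨n + 1, fun i => if i = 0 then x else v (i - 1), fun i => if i = 0 then m else l (i - 1),
      ?_, ?_, ?_, ?_⟩
    · simp
    · simp [hn]
    · intro i hi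
      rcases Nat.eq_zero_or_pos i with rfl | hpos
      · simp only [if_true, zero_add, one_ne_zero, if_false, Nat.sub_self, h0]
        exact h1
      · have e1 : i ≠ 0 := by omega
        have e2 : i + 1 ≠ 0 := by omega
        simp only [e1, e2, if_false]
        have := hs (i - 1) (by omega)
        rwa [show i - 1 + 1 = i + 1 - 1 by omega] at this
    · rw [Finset.sum_range_succ']
      simp only [if_true, Nat.add_sub_cancel, Nat.succ_ne_zero, if_false]
      rw [hm, add_comm]

lemma closed_fun_decomp {P : M → Prop} (h0 : P 0) (hadd : ∀ a b, P a → P b → P (a + b))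
    (hsimple : ∀ n v l, 1 ≤ n → IsSimpleClosed R n v l → P (∑ i ∈ range n, l i)) :
    ∀ (n : ℕ) (v : ℕ → V) (l : ℕ → M), v n = v 0 → (∀ i < n, R (v i) (v (i + 1)) (l i)) →
      P (∑ i ∈ range n, l i) := by
  intro n
  induction n using Nat.strong_induction_on with
  | _ n ih =>
    intro v l hcl hst
    rcases Nat.eq_zero_or_pos n with rfl | hpos
    · simpa using h0
    by_cases hinj : ∀ i < n, ∀ j < n, v i = v j → i = j
    · exact hsimple n v l hpos ⟨hcl, hst, hinj⟩
    push Not at hinj
    obtain ⟨i, hi, j, hj, hv, hne⟩ := hinj
    -- wlog i < j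
    obtain ⟨a, b, c, hb, hc, hn, hab⟩ : ∃ a b c : ℕ, 1 ≤ b ∧ 1 ≤ c ∧ n = a + b + c ∧
        v a = v (a + b) := by
      rcases Nat.lt_or_gt_of_ne hne with h | h
      · exact ⟨i, j - i, n - j, by omega, by omega, by omega, by
          rw [show i + (j - i) = j by omega]; exact hv⟩
      · exact ⟨j, i - j, n - i, by omega, by omega, by omega, by
          rw [show j + (i - j) = i by omega]; exact hv.symm⟩
    have hinner := ih b (by omega) (fun t => v (a + t)) (fun t => l (a + t))
      (by simpa using hab.symm) (by
        intro t ht
        have := hst (a + t) (by omega)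
        simpa [add_assoc] using this)
    have houter := ih (a + c) (by omega) (fun t => if t ≤ a then v t else v (t + b))
      (fun t => if t < a then l t else l (t + b))
      (by
        have e1 : ¬ (a + c ≤ a) := by omega
        simp only [e1, if_false, Nat.zero_le, if_true]
        rw [show a + c + b = n by omega]; exact hcl)
      (by
        intro t ht
        rcases Nat.lt_trichotomy t a with h | h | h
        · have e1 : t ≤ a := by omega
          have e2 : t + 1 ≤ a := by omega
          simp only [e1, e2, h, if_true]
          exact hst t (by omega)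
        · have e1 : t ≤ a := by omega
          have e2 : ¬ (t + 1 ≤ a) := by omega
          have e3 : ¬ (t < a) := by omega
          simp only [e1, e2, e3, if_true, if_false]
          subst h
          rw [hab]
          have := hst (t + b) (by omega)
          rwa [show t + b + 1 = t + 1 + b by omega] at this
        · have e1 : ¬ (t ≤ a) := by omega
          have e2 : ¬ (t + 1 ≤ a) := by omega
          have e3 : ¬ (t < a) := by omega
          simp only [e1, e2, e3, if_false]
          have := hst (t + b) (by omega)
          rwa [show t + b + 1 = t + 1 + b by omega] at this)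
    have hsum : ∑ t ∈ range n, l t = (∑ t ∈ range (a + c), (if t < a then l t else l (t + b))) +
        ∑ t ∈ range b, l (a + t) := by
      rw [hn, Finset.sum_range_add, Finset.sum_range_add, Finset.sum_range_add]
      have e1 : ∑ t ∈ range a, (if t < a then l t else l (t + b)) = ∑ t ∈ range a, l t := by
        apply Finset.sum_congr rfl
        intro t ht
        rw [Finset.mem_range] at ht
        rw [if_pos ht]
      have e2 : ∑ t ∈ range c, (if a + t < a then l (a + t) else l (a + t + b)) =
          ∑ t ∈ range c, l (a + b + t) := by
        apply Finset.sum_congr rfl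
        intro t ht
        rw [if_neg (by omega), show a + t + b = a + b + t by omega]
      rw [e1, e2]
      abel
    rw [hsum]
    exact hadd _ _ houter hinner

/-- Closed walks are sums of closed walks without repeated vertices. -/
lemma closed_decomp {P : M → Prop} (h0 : P 0) (hadd : ∀ a b, P a → P b → P (a + b))
    (hsimple : ∀ n v l, 1 ≤ n → IsSimpleClosed R n v l → P (∑ i ∈ range n, l i))
    {x : V} {m : M} (h : Walk R x x m) : P m := by
  obtain ⟨n, v, l, hx, hn, hs, rfl⟩ := h.exists_fun
  exact closed_fun_decomp h0 hadd hsimple n v l (by rw [hx, hn]) hs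

end Pool.Agent.Helper30.Guenin
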