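import Mathlib

/-!
Signed graphs, consistency, unbalanced girth, homomorphisms, signed projective cubes, and the
class of signed graphs built by sums along at most three vertices.
-/

namespace Pool.Agent.Helper30.Guenin

/-- A loopless signed multigraph on the vertex set `V` with edge set `E`: every edge has its
unordered pair of distinct end vertices, and `neg` is the set of negative edges. -/
structure SGraph (V E : Type*) where
  ends : E → Sym2 V
  loopless : ∀ e, ¬ (ends e).IsDiag
  neg : Set E

namespace SGraph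

variable {V E V' E' : Type*}

/-- `v` and `e` are the vertices and the edges of a cycle of length `n ≥ 2`: the vertices are
distinct, the edges are distinct, and the `i`-th edge joins the `i`-th and the `(i+1)`-st vertex
(indices modulo `n`). -/
structure IsCycle (G : SGraph V E) (n : ℕ) (v : ZMod n → V) (e : ZMod n → E) : Prop where
  two_le : 2 ≤ n
  v_inj : Function.Injective v
  e_inj : Function.Injective e
  joins : ∀ i, G.ends (e i) = s(v i, v (i + 1))

/-- The cycle with edges `e` is balanced: it has an even number of negative edges. -/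
def Balanced (G : SGraph V E) {n : ℕ} (e : ZMod n → E) : Prop := Even {i | e i ∈ G.neg}.ncard

/-- Consistent: balanced cycles have even length, and the lengths of any two unbalanced cycles
have the same parity. -/
def Consistent (G : SGraph V E) : Prop :=
  (∀ (n : ℕ) (v : ZMod n → V) (e : ZMod n → E), G.IsCycle n v e → G.Balanced e → Even n) ∧
  ∀ (n : ℕ) (v : ZMod n → V) (e : ZMod n → E) (n' : ℕ) (v' : ZMod n' → V) (e' : ZMod n' → E),
    G.IsCycle n v e → ¬ G.Balanced e → G.IsCycle n' v' e' → ¬ G.Balanced e' → n % 2 = n' % 2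

/-- The unbalanced girth is `k`: the minimum length of an unbalanced cycle. -/
def UnbGirth (G : SGraph V E) (k : ℕ) : Prop :=
  (∃ (v : ZMod k → V) (e : ZMod k → E), G.IsCycle k v e ∧ ¬ G.Balanced e) ∧
  ∀ (n : ℕ) (v : ZMod n → V) (e : ZMod n → E), G.IsCycle n v e → ¬ G.Balanced e → k ≤ n

/-- The edge cut of `X`. -/
def cut (G : SGraph V E) (X : Set V) : Set E := {e | ∃ x ∈ X, ∃ y ∉ X, G.ends e = s(x, y)}

/-- `G` admits a homomorphism to `H`: after switching `G` at `X` and `H` at `Y` there is a map of
vertices and edges preserving incidence and the sign of every edge. -/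
def MapsTo (G : SGraph V E) (H : SGraph V' E') : Prop :=
  ∃ (X : Set V) (Y : Set V') (φ : V → V') (ψ : E → E'),
    (∀ e, H.ends (ψ e) = (G.ends e).map φ) ∧
    ∀ e, e ∈ symmDiff G.neg (G.cut X) ↔ ψ e ∈ symmDiff H.neg (H.cut Y)

/-- `x` and `y` are joined by an edge of sign `s`, where `s = 1` stands for negative. -/
def Adj (G : SGraph V E) (x y : V) (s : ZMod 2) : Prop :=
  ∃ e, G.ends e = s(x, y) ∧ (s = 1 ↔ e ∈ G.neg)

end SGraph

/-- The generators of the projective cube: `none` is the all-one vector `J`, and `some i` is the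
unit vector `e_i`. -/
def gen (d : ℕ) : Option (Fin d) → (Fin d → ZMod 2)
  | none => fun _ => 1
  | some i => Pi.single i 1

lemma gen_ne_zero (d : ℕ) [NeZero d] (o : Option (Fin d)) : gen d o ≠ 0 := by
  intro h
  rcases o with _ | i
  · have := congrFun h (0 : Fin d)
    simp [gen] at this
  · have := congrFun h i
    simp [gen] at this

/-- The signed projective cube of dimension `d`: its vertices are the vectors of `ZMod 2 ^ d`, its
edges are the pairs `({v, v + g}, g)` with `g` one of the generators `e_1, …, e_d, J`, and the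
negative edges are those with `g = J`. -/
def SPC (d : ℕ) [NeZero d] : SGraph (Fin d → ZMod 2)
    {p : Sym2 (Fin d → ZMod 2) × Option (Fin d) // ∃ v, p.1 = s(v, v + gen d p.2)} where
  ends p := p.1.1
  loopless := by
    rintro ⟨⟨q, o⟩, v, hv⟩ h
    simp only at hv h
    rw [hv, Sym2.mk_isDiag_iff] at h
    exact gen_ne_zero d o (by simpa using h.symm)
  neg := {p | p.1.2 = none}

/-- A closed walk of a signed adjacency relation without repeated vertices: `v 0, …, v (n-1)` are
distinct, `v n = v 0`, and `v i`, `v (i+1)` are adjacent with sign `s i`. -/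
structure IsRing {V : Type*} (A : V → V → ZMod 2 → Prop) (n : ℕ) (v : ℕ → V) (s : ℕ → ZMod 2) :
    Prop where
  closed : v n = v 0
  step : ∀ i < n, A (v i) (v (i + 1)) (s i)
  inj : ∀ i < n, ∀ j < n, v i = v j → i = j

/-- `w` is a winding function for the signed adjacencies inside the set `Y`: it is antisymmetric,
odd exactly on negative adjacencies, and its sum around every closed walk inside `Y` without
repeated vertices is `-1`, `0` or `1`. -/
structure IsWinding {V : Type*} (Y : Set V) (A : V → V → ZMod 2 → Prop)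
    (w : V → V → ZMod 2 → ℤ) : Prop where
  anti : ∀ x y s, w y x s = - w x y s
  par : ∀ x ∈ Y, ∀ y ∈ Y, ∀ s, A x y s → (w x y s : ZMod 2) = s
  ring : ∀ (n : ℕ) (v : ℕ → V) (s : ℕ → ZMod 2), 1 ≤ n →
    IsRing (fun x y s => A x y s ∧ x ∈ Y ∧ y ∈ Y) n v s →
    |∑ i ∈ Finset.range n, w (v i) (v (i + 1)) (s i)| ≤ 1

/-- The class of signed graphs of the main theorem. `Built X A` says that the signed graph with
vertex set `X` and signed adjacency `A` can be built by the following rules.
* `small`: it has at most four vertices.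
* `apex`: deleting some vertex `u` leaves a signed graph with a winding function.
* `sum`: it is the union of two parts meeting in a set `T` of at most three vertices, and each
  part, with a positive and a negative edge added between any two vertices of `T`, is built.
* `edge`: it is the union of two parts meeting in `{a, b}`, the second of which is balanced
  (switching at `σ` makes it all positive), and the first part with one edge `ab` of the
  corresponding sign is built.
* `tripod`: it is the union of two parts meeting in `{x, y, z}`, the second of which is balanced,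
  and the first part, together with a vertex `b` joined to `x`, `y`, `z` with the corresponding
  signs, is built. -/
inductive Built {V : Type*} : Set V → (V → V → ZMod 2 → Prop) → Prop
  | small {X : Set V} {A : V → V → ZMod 2 → Prop} (h : X.ncard ≤ 4) : Built X A
  | apex {X : Set V} {A : V → V → ZMod 2 → Prop} (u : V) (w : V → V → ZMod 2 → ℤ)
      (h : IsWinding (X \ {u}) A w) : Built X A
  | sum {X1 X2 : Set V} {A : V → V → ZMod 2 → Prop} (hT : (X1 ∩ X2).ncard ≤ 3)
      (hA : ∀ x ∈ X1 ∪ X2, ∀ y ∈ X1 ∪ X2, ∀ s, A x y s →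
        (x ∈ X1 ∧ y ∈ X1) ∨ (x ∈ X2 ∧ y ∈ X2))
      (h1 : Built X1 (fun x y s => A x y s ∨ (x ∈ X1 ∩ X2 ∧ y ∈ X1 ∩ X2 ∧ x ≠ y)))
      (h2 : Built X2 (fun x y s => A x y s ∨ (x ∈ X1 ∩ X2 ∧ y ∈ X1 ∩ X2 ∧ x ≠ y))) :
      Built (X1 ∪ X2) A
  | edge {X1 X2 : Set V} {A : V → V → ZMod 2 → Prop} (a b : V) (σ : V → ZMod 2)
      (hT : X1 ∩ X2 = {a, b})
      (hA : ∀ x ∈ X1 ∪ X2, ∀ y ∈ X1 ∪ X2, ∀ s, A x y s →
        (x ∈ X1 ∧ y ∈ X1) ∨ (x ∈ X2 ∧ y ∈ X2 ∧ s = σ x + σ y))
      (h1 : Built X1 (fun x y s => A x y s ∨ (s(x, y) = s(a, b) ∧ s = σ a + σ b))) :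
      Built (X1 ∪ X2) A
  | tripod {X1 X2 : Set V} {A : V → V → ZMod 2 → Prop} (x y z b : V) (σ : V → ZMod 2)
      (hT : X1 ∩ X2 = {x, y, z}) (hb2 : b ∈ X2) (hb1 : b ∉ X1)
      (hA : ∀ p ∈ X1 ∪ X2, ∀ q ∈ X1 ∪ X2, ∀ s, A p q s →
        (p ∈ X1 ∧ q ∈ X1) ∨ (p ∈ X2 ∧ q ∈ X2 ∧ s = σ p + σ q))
      (h1 : Built (X1 ∪ {b}) (fun p q s => (A p q s ∧ p ∈ X1 ∧ q ∈ X1) ∨
        (p = b ∧ q ∈ X1 ∩ X2 ∧ s = σ b + σ q) ∨ (q = b ∧ p ∈ X1 ∩ X2 ∧ s = σ b + σ p))) :
      Built (X1 ∪ X2) A

end Pool.Agent.Helper30.Guenin
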