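import Pool.Agent.Helper30.Guenin.Sat

/-!
Packings (maps to subsets of `Fin k`) and gluing along at most three saturated vertices.
-/

namespace Pool.Agent.Helper30.Guenin

open Finset

/-- `f` realises the system: edges of sign `0` and length `n` join sets at distance at most `n`,
edges of sign `1` and length `n` join sets at distance at least `k - n`. -/
def Pack {V : Type*} (k : ℕ) (R : V → V → Lab → Prop) (f : V → Finset (Fin k)) : Prop :=
  ∀ x y n, (R x y (0, n) → (symmDiff (f x) (f y)).card ≤ n) ∧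
    (R x y (1, n) → k ≤ (symmDiff (f x) (f y)).card + n)

variable {V : Type*} {k : ℕ} {R : V → V → Lab → Prop} {ρ : V → ZMod 2}

lemma exists_sat_list (hk : 1 ≤ k) (L : List (V × V)) : ∀ (R : V → V → Lab → Prop), Sys k R ρ →
    ∃ R' : V → V → Lab → Prop, Sys k R' ρ ∧ (∀ x y m, R x y m → R' x y m) ∧
      (∀ x y m, R' x y m → R x y m ∨ ((x, y) ∈ L ∨ (y, x) ∈ L)) ∧
      ∀ q ∈ L, ∃ p ≤ k, R' q.1 q.2 (0, p) ∧ R' q.1 q.2 (1, k - p) := by
  induction L with
  | nil => intro R h; exact ⟨R, h, fun _ _ _ h => h, fun _ _ _ h => Or.inl h, by simp⟩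
  | cons q L ih =>
    intro R h
    obtain ⟨p, hp, h'⟩ := exists_sat h hk q.1 q.2
    obtain ⟨R', hS, hle, hsub, hsat⟩ := ih _ h'
    refine ⟨R', hS, fun x y m hr => hle _ _ _ (Or.inl hr), ?_, ?_⟩
    · intro x y m hr
      rcases hsub x y m hr with (hr | hr) | hr
      · exact Or.inl hr
      · right
        rcases hr.1 with ⟨rfl, rfl⟩ | ⟨rfl, rfl⟩
        · left; simp
        · right; simp
      · right
        rcases hr with hr | hr
        · left; exact List.mem_cons_of_mem _ hr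
        · right; exact List.mem_cons_of_mem _ hr
    · intro q' hq'
      rcases List.mem_cons.mp hq' with rfl | hq'
      · exact ⟨p, hp, hle _ _ _ (Or.inr ⟨Or.inl ⟨rfl, rfl⟩, Or.inl rfl⟩),
          hle _ _ _ (Or.inr ⟨Or.inl ⟨rfl, rfl⟩, Or.inr rfl⟩)⟩
      · exact hsat q' hq'

/-- all pairs of a finite set can be saturated -/
lemma exists_sat_set (hk : 1 ≤ k) (h : Sys k R ρ) (T : Set V) (hT : T.Finite) :
    ∃ R' : V → V → Lab → Prop, Sys k R' ρ ∧ (∀ x y m, R x y m → R' x y m) ∧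
      (∀ x y m, R' x y m → R x y m ∨ (x ∈ T ∧ y ∈ T ∧ x ≠ y)) ∧
      ∀ x ∈ T, ∀ y ∈ T, x ≠ y → ∃ p ≤ k, R' x y (0, p) ∧ R' x y (1, k - p) := by
  classical
  obtain ⟨R', hS, hle, hsub, hsat⟩ := exists_sat_list hk (hT.toFinset.offDiag.toList) R h
  refine ⟨R', hS, hle, ?_, ?_⟩
  · intro x y m hr
    rcases hsub x y m hr with h1 | h1 | h1
    · exact Or.inl h1
    · right
      simpa [and_assoc] using h1
    · right
      have : y ∈ T ∧ x ∈ T ∧ y ≠ x := by simpa [and_assoc] using h1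
      exact ⟨this.2.1, this.1, this.2.2.symm⟩
  · intro x hx y hy hxy
    exact hsat (x, y) (by simp [hx, hy, hxy])

lemma pack_eq_of_sat {f : V → Finset (Fin k)} (hf : Pack k R f) {x y : V} {p : ℕ} (hp : p ≤ k)
    (h0 : R x y (0, p)) (h1 : R x y (1, k - p)) : (symmDiff (f x) (f y)).card = p := by
  have e0 := (hf x y p).1 h0
  have e1 := (hf x y (k - p)).2 h1
  omega

lemma exists_perm_fiber {ι κ : Type*} [Fintype ι] [DecidableEq κ] (g h : ι → κ)
    (hc : ∀ c, (univ.filter (fun i => g i = c)).card = (univ.filter (fun i => h i = c)).card) :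
    ∃ σ : Equiv.Perm ι, ∀ i, g (σ i) = h i := by
  classical
  have e : ∀ c, Nonempty ({i // h i = c} ≃ {i // g i = c}) := by
    intro c
    refine ⟨Fintype.equivOfCardEq ?_⟩
    rw [Fintype.card_subtype, Fintype.card_subtype]
    exact (hc c).symm
  exact ⟨Equiv.ofFiberEquiv (fun c => (e c).some), fun i => Equiv.ofFiberEquiv_map _ i⟩

/-- two pairs of subsets with the same sizes differ by a permutation -/
lemma exists_perm_two (A1 A2 B1 B2 : Finset (Fin k)) (h1 : A1.card = B1.card)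
    (h2 : A2.card = B2.card) (h12 : (symmDiff A1 A2).card = (symmDiff B1 B2).card) :
    ∃ σ : Equiv.Perm (Fin k), B1.map σ.toEmbedding = A1 ∧ B2.map σ.toEmbedding = A2 := by
  classical
  have cnt : ∀ (A1 A2 : Finset (Fin k)) (c : Bool × Bool),
      (univ.filter (fun i => (decide (i ∈ A1), decide (i ∈ A2)) = c)).card =
        match c with
        | (true, true) => (A1 ∩ A2).card
        | (true, false) => (A1 \ A2).card
        | (false, true) => (A2 \ A1).card
        | (false, false) => (A1 ∪ A2)ᶜ.card := by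
    intro A1 A2 c
    rcases c with ⟨_ | _, _ | _⟩ <;> simp only [Prod.mk.injEq] <;> congr 1 <;> ext i <;> simp
    tauto
  have id1 : ∀ (A1 A2 : Finset (Fin k)), (A1 ∩ A2).card + (A1 \ A2).card = A1.card := by
    intro A1 A2; exact Finset.card_inter_add_card_sdiff A1 A2
  have id3 : ∀ (A1 A2 : Finset (Fin k)), (symmDiff A1 A2).card = (A1 \ A2).card + (A2 \ A1).card := by
    intro A1 A2
    rw [symmDiff_def]
    exact Finset.card_union_of_disjoint (by
      rw [Finset.disjoint_left]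
      intro i hi hj
      simp only [Finset.mem_sdiff] at hi hj
      exact hi.2 hj.1)
  have id4 : ∀ (A1 A2 : Finset (Fin k)), (A1 ∪ A2)ᶜ.card + ((A1 ∩ A2).card + (A1 \ A2).card +
      (A2 \ A1).card) = k := by
    intro A1 A2
    have e1 := Finset.card_add_card_compl (A1 ∪ A2)
    have e2 := Finset.card_union_add_card_inter A1 A2
    have e3 := id1 A1 A2
    have e4 := id1 A2 A1
    rw [Finset.inter_comm A2 A1] at e4
    rw [Fintype.card_fin] at e1
    omega
  have a1 := id1 A1 A2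
  have a2 := id1 A2 A1
  have a3 := id3 A1 A2
  have a4 := id4 A1 A2
  have b1 := id1 B1 B2
  have b2 := id1 B2 B1
  have b3 := id3 B1 B2
  have b4 := id4 B1 B2
  rw [Finset.inter_comm A2 A1] at a2
  rw [Finset.inter_comm B2 B1] at b2
  obtain ⟨σ, hσ⟩ := exists_perm_fiber (fun i => (decide (i ∈ A1), decide (i ∈ A2)))
    (fun i => (decide (i ∈ B1), decide (i ∈ B2))) (by
      intro c
      rw [cnt, cnt]
      rcases c with ⟨_ | _, _ | _⟩ <;> simp only <;> omega)
  refine ⟨σ, ?_, ?_⟩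
  · ext i
    rw [Finset.mem_map_equiv]
    have := hσ (σ.symm i)
    simp only [Equiv.apply_symm_apply, Prod.mk.injEq, decide_eq_decide] at this
    exact this.1.symm
  · ext i
    rw [Finset.mem_map_equiv]
    have := hσ (σ.symm i)
    simp only [Equiv.apply_symm_apply, Prod.mk.injEq, decide_eq_decide] at this
    exact this.2.symm

lemma map_symmDiff' (σ : Equiv.Perm (Fin k)) (A B : Finset (Fin k)) :
    (symmDiff A B).map σ.toEmbedding = symmDiff (A.map σ.toEmbedding) (B.map σ.toEmbedding) := by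
  ext i
  simp only [Finset.mem_map_equiv, Finset.mem_symmDiff]

/-- three subsets up to permutation and translation -/
lemma exists_perm_three (A0 A1 A2 B0 B1 B2 : Finset (Fin k))
    (h1 : (symmDiff A0 A1).card = (symmDiff B0 B1).card)
    (h2 : (symmDiff A0 A2).card = (symmDiff B0 B2).card)
    (h12 : (symmDiff A1 A2).card = (symmDiff B1 B2).card) :
    ∃ (σ : Equiv.Perm (Fin k)) (C : Finset (Fin k)), symmDiff (B0.map σ.toEmbedding) C = A0 ∧
      symmDiff (B1.map σ.toEmbedding) C = A1 ∧ symmDiff (B2.map σ.toEmbedding) C = A2 := by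
  have cancel : ∀ X Y Z : Finset (Fin k), symmDiff (symmDiff X Y) (symmDiff X Z) = symmDiff Y Z := by
    intro X Y Z
    ext i
    simp only [Finset.mem_symmDiff]
    tauto
  obtain ⟨σ, e1, e2⟩ := exists_perm_two (symmDiff A0 A1) (symmDiff A0 A2) (symmDiff B0 B1)
    (symmDiff B0 B2) h1 h2 (by rw [cancel, cancel, h12])
  rw [map_symmDiff'] at e1 e2
  refine ⟨σ, symmDiff (B0.map σ.toEmbedding) A0, ?_, ?_, ?_⟩
  · ext i
    simp only [Finset.mem_symmDiff]
    tauto
  · ext i
    have := congrArg (fun s => i ∈ s) e1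
    simp only [Finset.mem_symmDiff, eq_iff_iff] at this
    simp only [Finset.mem_symmDiff]
    tauto
  · ext i
    have := congrArg (fun s => i ∈ s) e2
    simp only [Finset.mem_symmDiff, eq_iff_iff] at this
    simp only [Finset.mem_symmDiff]
    tauto

lemma card_act (σ : Equiv.Perm (Fin k)) (C A B : Finset (Fin k)) :
    (symmDiff (symmDiff (A.map σ.toEmbedding) C) (symmDiff (B.map σ.toEmbedding) C)).card =
      (symmDiff A B).card := by
  have : symmDiff (symmDiff (A.map σ.toEmbedding) C) (symmDiff (B.map σ.toEmbedding) C) =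
      (symmDiff A B).map σ.toEmbedding := by
    rw [map_symmDiff']
    ext i
    simp only [Finset.mem_symmDiff]
    tauto
  rw [this, Finset.card_map]

lemma symmDiff_self_card (A : Finset (Fin k)) : (symmDiff A A).card = 0 := by
  rw [symmDiff_self]; rfl

/-- Gluing two packings along a set of at most three saturated vertices. -/
lemma glue (X1 X2 : Set V) (hT : (X1 ∩ X2).ncard ≤ 3) (hTf : (X1 ∩ X2).Finite)
    (hsplit : ∀ x y m, R x y m → (x ∈ X1 ∧ y ∈ X1) ∨ (x ∈ X2 ∧ y ∈ X2))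
    (hsat : ∀ x ∈ X1 ∩ X2, ∀ y ∈ X1 ∩ X2, x ≠ y → ∃ p ≤ k, R x y (0, p) ∧ R x y (1, k - p))
    {f1 f2 : V → Finset (Fin k)}
    (h1 : Pack k (fun x y m => R x y m ∧ x ∈ X1 ∧ y ∈ X1) f1)
    (h2 : Pack k (fun x y m => R x y m ∧ x ∈ X2 ∧ y ∈ X2) f2) :
    ∃ f : V → Finset (Fin k), Pack k R f := by
  classical
  have hdist : ∀ x ∈ X1 ∩ X2, ∀ y ∈ X1 ∩ X2, (symmDiff (f1 x) (f1 y)).card =
      (symmDiff (f2 x) (f2 y)).card := by
    intro x hx y hy
    by_cases hxy : x = y
    · subst hxy; rw [symmDiff_self_card, symmDiff_self_card]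
    · obtain ⟨p, hp, hr0, hr1⟩ := hsat x hx y hy hxy
      rw [pack_eq_of_sat h1 hp ⟨hr0, hx.1, hy.1⟩ ⟨hr1, hx.1, hy.1⟩,
        pack_eq_of_sat h2 hp ⟨hr0, hx.2, hy.2⟩ ⟨hr1, hx.2, hy.2⟩]
  -- the aligning motion
  obtain ⟨σ, C, hσ⟩ : ∃ (σ : Equiv.Perm (Fin k)) (C : Finset (Fin k)), ∀ x ∈ X1 ∩ X2,
      symmDiff ((f2 x).map σ.toEmbedding) C = f1 x := by
    have main : ∀ a b c : V, X1 ∩ X2 = {a, b, c} → ∃ (σ : Equiv.Perm (Fin k))
        (C : Finset (Fin k)), ∀ x ∈ X1 ∩ X2, symmDiff ((f2 x).map σ.toEmbedding) C = f1 x := by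
      intro a b c hab
      have ha : a ∈ X1 ∩ X2 := by rw [hab]; simp
      have hb : b ∈ X1 ∩ X2 := by rw [hab]; simp
      have hc : c ∈ X1 ∩ X2 := by rw [hab]; simp
      obtain ⟨σ, C, e0, e1, e2⟩ := exists_perm_three (f1 a) (f1 b) (f1 c) (f2 a) (f2 b) (f2 c)
        (hdist a ha b hb) (hdist a ha c hc) (hdist b hb c hc)
      refine ⟨σ, C, ?_⟩
      intro x hx
      rw [hab] at hx
      rcases hx with rfl | rfl | rfl
      · exact e0
      · exact e1
      · exact e2
    have hn : (X1 ∩ X2).ncard = 0 ∨ (X1 ∩ X2).ncard = 1 ∨ (X1 ∩ X2).ncard = 2 ∨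
        (X1 ∩ X2).ncard = 3 := by omega
    rcases hn with hn | hn | hn | hn
    · rw [Set.ncard_eq_zero hTf] at hn
      refine ⟨Equiv.refl _, ∅, ?_⟩
      intro x hx
      rw [hn] at hx
      exact absurd hx (Set.notMem_empty x)
    · obtain ⟨a, ha⟩ := Set.ncard_eq_one.mp hn
      exact main a a a (by rw [ha]; simp)
    · obtain ⟨a, b, _, ha⟩ := Set.ncard_eq_two.mp hn
      exact main a a b (by rw [ha]; simp)
    · obtain ⟨a, b, c, _, _, _, ha⟩ := Set.ncard_eq_three.mp hn
      exact main a b c ha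
  refine ⟨fun x => if x ∈ X1 then f1 x else symmDiff ((f2 x).map σ.toEmbedding) C, ?_⟩
  have hf2 : ∀ x ∈ X2, (if x ∈ X1 then f1 x else symmDiff ((f2 x).map σ.toEmbedding) C) =
      symmDiff ((f2 x).map σ.toEmbedding) C := by
    intro x hx
    by_cases hx1 : x ∈ X1
    · rw [if_pos hx1, hσ x ⟨hx1, hx⟩]
    · rw [if_neg hx1]
  intro x y n
  constructor
  · intro hr
    rcases hsplit x y _ hr with ⟨hx, hy⟩ | ⟨hx, hy⟩
    · simp only [hx, hy, if_true]
      exact (h1 x y n).1 ⟨hr, hx, hy⟩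
    · simp only [hf2 x hx, hf2 y hy, card_act]
      exact (h2 x y n).1 ⟨hr, hx, hy⟩
  · intro hr
    rcases hsplit x y _ hr with ⟨hx, hy⟩ | ⟨hx, hy⟩
    · simp only [hx, hy, if_true]
      exact (h1 x y n).2 ⟨hr, hx, hy⟩
    · simp only [hf2 x hx, hf2 y hy, card_act]
      exact (h2 x y n).2 ⟨hr, hx, hy⟩

end Pool.Agent.Helper30.Guenin
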