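import Pool.Agent.Helper30.Guenin.Trans

/-!
The homomorphism to the signed projective cube.
-/

namespace Pool.Agent.Helper30.Guenin

open Finset

variable {V E : Type*}

lemma mapsTo_of_exact (G : SGraph V E) (d : ℕ) [NeZero d] (g : V → Finset (Fin (d + 1)))
    (hg : ∀ x y, (G.Adj x y 0 → (symmDiff (g x) (g y)).card = 1) ∧
      (G.Adj x y 1 → (symmDiff (g x) (g y)).card + 1 = d + 1)) : G.MapsTo (SPC d) := by
  classical
  let X : Set V := {x | Fin.last d ∈ g x}
  let gg : V → Finset (Fin (d + 1)) := fun x => if Fin.last d ∈ g x then (g x)ᶜ else g x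
  have hlast : ∀ x, Fin.last d ∉ gg x := by
    intro x
    simp only [gg]
    split_ifs with h
    · simp [h]
    · exact h
  let φ : V → (Fin d → ZMod 2) := fun x i => if i.castSucc ∈ gg x then 1 else 0
  have hφ : ∀ x y i, φ y i = φ x i + if i.castSucc ∈ symmDiff (gg x) (gg y) then 1 else 0 := by
    intro x y i
    simp only [φ, Finset.mem_symmDiff]
    by_cases h1 : i.castSucc ∈ gg x <;> by_cases h2 : i.castSucc ∈ gg y <;> simp [h1, h2]
    decide
  have hcut : ∀ e x y, G.ends e = s(x, y) → (e ∈ G.cut X ↔ ¬ (x ∈ X ↔ y ∈ X)) := by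
    intro e x y he
    constructor
    · rintro ⟨a, ha, b, hb, hab⟩
      rw [he, Sym2.eq_iff] at hab
      rcases hab with ⟨rfl, rfl⟩ | ⟨rfl, rfl⟩
      · exact fun h => hb (h.mp ha)
      · exact fun h => hb (h.mpr ha)
    · intro h
      by_cases hx : x ∈ X
      · have hy : y ∉ X := fun hy => h ⟨fun _ => hy, fun _ => hx⟩
        exact ⟨x, hx, y, hy, he⟩
      · have hy : y ∈ X := by
          by_contra hy
          exact h ⟨fun h' => absurd h' hx, fun h' => absurd h' hy⟩
        exact ⟨y, hy, x, hx, by rw [he, Sym2.eq_swap]⟩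
  -- the size of the difference
  have hsame : ∀ x y, (x ∈ X ↔ y ∈ X) → symmDiff (gg x) (gg y) = symmDiff (g x) (g y) := by
    intro x y h
    simp only [gg]
    by_cases hx : Fin.last d ∈ g x
    · have hy : Fin.last d ∈ g y := h.mp hx
      rw [if_pos hx, if_pos hy]
      ext i; simp only [Finset.mem_symmDiff, Finset.mem_compl]; tauto
    · have hy : Fin.last d ∉ g y := fun hy => hx (h.mpr hy)
      rw [if_neg hx, if_neg hy]
  have hdiff : ∀ x y, ¬ (x ∈ X ↔ y ∈ X) → symmDiff (gg x) (gg y) = (symmDiff (g x) (g y))ᶜ := by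
    intro x y h
    simp only [gg]
    by_cases hx : Fin.last d ∈ g x
    · have hy : Fin.last d ∉ g y := fun hy => h ⟨fun _ => hy, fun _ => hx⟩
      rw [if_pos hx, if_neg hy]
      ext i; simp only [Finset.mem_symmDiff, Finset.mem_compl]; tauto
    · have hy : Fin.last d ∈ g y := by
        by_contra hy
        exact h ⟨fun h' => absurd h' hx, fun h' => absurd h' hy⟩
      rw [if_neg hx, if_pos hy]
      ext i; simp only [Finset.mem_symmDiff, Finset.mem_compl]; tauto
  have hcard : ∀ e x y, G.ends e = s(x, y) →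
      (e ∈ symmDiff G.neg (G.cut X) → (symmDiff (gg x) (gg y)).card = d) ∧
      (e ∉ symmDiff G.neg (G.cut X) → (symmDiff (gg x) (gg y)).card = 1) := by
    intro e x y he
    have hc := hcut e x y he
    rw [Set.mem_symmDiff]
    have hcompl := Finset.card_add_card_compl (symmDiff (g x) (g y))
    rw [Fintype.card_fin] at hcompl
    by_cases hn : e ∈ G.neg
    · have ha := (hg x y).2 ⟨e, he, fun _ => hn, fun _ => rfl⟩
      by_cases hs : (x ∈ X ↔ y ∈ X)
      · rw [hsame x y hs]
        constructor
        · intro _; omega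
        · intro h; exact absurd (Or.inl ⟨hn, fun h' => (hc.mp h') hs⟩) h
      · rw [hdiff x y hs]
        constructor
        · intro h
          rcases h with ⟨_, h⟩ | ⟨_, h⟩
          · exact absurd (hc.mpr hs) h
          · exact absurd hn h
        · intro _; omega
    · have ha := (hg x y).1 ⟨e, he, fun h => absurd h (by decide), fun h => absurd h hn⟩
      by_cases hs : (x ∈ X ↔ y ∈ X)
      · rw [hsame x y hs]
        constructor
        · intro h
          rcases h with ⟨h, _⟩ | ⟨h, _⟩
          · exact absurd h hn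
          · exact absurd hs (hc.mp h)
        · intro _; exact ha
      · rw [hdiff x y hs]
        constructor
        · intro _; omega
        · intro h; exact absurd (Or.inr ⟨hc.mpr hs, hn⟩) h
  -- edges
  have hedge : ∀ e, ∃ o : Option (Fin d), (∃ v, (G.ends e).map φ = s(v, v + gen d o)) ∧
      (e ∈ symmDiff G.neg (G.cut X) ↔ o = none) := by
    intro e
    obtain ⟨x, y, he⟩ : ∃ x y, G.ends e = s(x, y) := by
      induction h : G.ends e using Sym2.ind with
      | _ x y => exact ⟨x, y, rfl⟩
    have hc := hcard e x y he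
    have hl : Fin.last d ∉ symmDiff (gg x) (gg y) := by
      rw [Finset.mem_symmDiff]
      rintro (⟨h, _⟩ | ⟨h, _⟩)
      · exact hlast x h
      · exact hlast y h
    by_cases hs : e ∈ symmDiff G.neg (G.cut X)
    · refine ⟨none, ⟨φ x, ?_⟩, ⟨fun _ => rfl, fun _ => hs⟩⟩
      rw [he, Sym2.map_mk]
      have hall : ∀ i : Fin d, i.castSucc ∈ symmDiff (gg x) (gg y) := by
        have h1 : symmDiff (gg x) (gg y) = {Fin.last d}ᶜ := by
          apply Finset.eq_of_subset_of_card_le
          · intro i hi
            simp only [Finset.mem_compl, Finset.mem_singleton]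
            rintro rfl
            exact hl hi
          · rw [Finset.card_compl, Fintype.card_fin, Finset.card_singleton, hc.1 hs]
            omega
        intro i
        rw [h1]
        simp only [Finset.mem_compl, Finset.mem_singleton]
        exact (Fin.castSucc_lt_last i).ne
      have h2 : φ y = φ x + gen d none := by
        funext i
        rw [hφ x y i, if_pos (hall i)]
        rfl
      simp only [h2]
    · obtain ⟨j, hj⟩ := Finset.card_eq_one.mp (hc.2 hs)
      have hjl : j ≠ Fin.last d := by
        rintro rfl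
        exact hl (by rw [hj]; simp)
      obtain ⟨i, rfl⟩ := Fin.exists_castSucc_eq.mpr hjl
      refine ⟨some i, ⟨φ x, ?_⟩, ⟨fun h => absurd h hs, fun h => absurd h (by simp)⟩⟩
      rw [he, Sym2.map_mk]
      have h2 : φ y = φ x + gen d (some i) := by
        funext i'
        rw [hφ x y i', hj]
        simp only [Finset.mem_singleton, Fin.castSucc_inj, gen, Pi.add_apply, Pi.single_apply]
      simp only [h2]
  choose o ho1 ho2 using hedge
  refine ⟨X, ∅, φ, fun e => ⟨((G.ends e).map φ, o e), ho1 e⟩, fun e => rfl, ?_⟩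
  intro e
  have hcut0 : (SPC d).cut ∅ = ∅ := by
    ext p
    simp [SGraph.cut]
  rw [hcut0, ho2]
  have : symmDiff (SPC d).neg ∅ = (SPC d).neg := by
    ext p; simp [Set.mem_symmDiff]
  rw [this]
  rfl

/-- **Main theorem.** -/
theorem built_mapsTo {V E : Type*} [Finite V] (G : SGraph V E) (d : ℕ) [NeZero d]
    (hc : G.Consistent) (hg : G.UnbGirth (d + 1)) (hB : Built Set.univ G.Adj) :
    G.MapsTo (SPC d) := by
  obtain ⟨ρ, hS⟩ := exists_sys G (d + 1) hc hg
  obtain ⟨f, hf⟩ := hB.solvable (d + 1) (by omega) (GRel G) ρ hS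
    (fun x y s n hr => ⟨Set.mem_univ _, Set.mem_univ _, hr.1⟩)
  obtain ⟨g, hg'⟩ := exists_exact G (by omega) hS hf
  exact mapsTo_of_exact G d g hg'

end Pool.Agent.Helper30.Guenin
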