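import Pool.Agent.Helper30.Guenin.Closed

/-!
Signed weighted systems; adding a pair of parallel edges of opposite signs whose lengths add up
to `k`.
-/

namespace Pool.Agent.Helper30.Guenin

open Finset

/-- labels: sign and length -/
abbrev Lab := ZMod 2 × ℕ

lemma z2 (a : ZMod 2) : a = 0 ∨ a = 1 := by
  revert a; decide

lemma z2_add_self (a : ZMod 2) : a + a = 0 := by
  revert a; decide

/-- A symmetric system of signed weighted edges, all of whose closed walks of sign `1` have
length at least `k`, with a parity function. -/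
structure Sys {V : Type*} (k : ℕ) (R : V → V → Lab → Prop) (ρ : V → ZMod 2) : Prop where
  symm : ∀ x y m, R x y m → R y x m
  good : ∀ x n, Walk R x x (1, n) → k ≤ n
  par : ∀ x y s n, R x y (s, n) → (n : ZMod 2) = ρ x + ρ y + k * s

variable {V : Type*} {k : ℕ} {R : V → V → Lab → Prop} {ρ : V → ZMod 2}

lemma Sys.walk_symm (h : Sys k R ρ) {x y : V} {m : Lab} (hw : Walk R x y m) : Walk R y x m :=
  hw.symm h.symm

lemma walk_par_aux (hp : ∀ x y s n, R x y (s, n) → (n : ZMod 2) = ρ x + ρ y + k * s)
    {x y : V} {m : Lab} (hw : Walk R x y m) : (m.2 : ZMod 2) = ρ x + ρ y + k * m.1 := by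
  induction hw with
  | nil x => simp [z2_add_self]
  | @cons x y z m m' h1 h2 ih =>
    obtain ⟨s, n⟩ := m
    obtain ⟨s', n'⟩ := m'
    have e1 := hp _ _ _ _ h1
    simp only [Prod.mk_add_mk, Nat.cast_add] at *
    rw [e1, ih, mul_add]
    have := z2_add_self (ρ y)
    linear_combination this

lemma Sys.walk_par (h : Sys k R ρ) {x y : V} {s : ZMod 2} {n : ℕ} (hw : Walk R x y (s, n)) :
    (n : ZMod 2) = ρ x + ρ y + k * s :=
  walk_par_aux h.par hw

/-- sub-systems -/
lemma Sys.mono (h : Sys k R ρ) {R' : V → V → Lab → Prop} (hs : ∀ x y m, R' x y m → R' y x m)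
    (hle : ∀ x y m, R' x y m → R x y m) : Sys k R' ρ :=
  ⟨hs, fun x n hw => h.good x n (hw.mono hle), fun x y s n hr => h.par x y s n (hle _ _ _ hr)⟩

/-- a new pair of parallel edges between `i` and `j` of lengths `p` (sign 0) and `k - p` (sign 1) -/
def NewE (k : ℕ) (i j : V) (p : ℕ) (x y : V) (m : Lab) : Prop :=
  ((x = i ∧ y = j) ∨ (x = j ∧ y = i)) ∧ (m = (0, p) ∨ m = (1, k - p))

lemma NewE.symm {i j : V} {p : ℕ} {x y : V} {m : Lab} (h : NewE k i j p x y m) :
    NewE k i j p y x m := by
  obtain ⟨h1, h2⟩ := h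
  refine ⟨?_, h2⟩
  rcases h1 with ⟨a, b⟩ | ⟨a, b⟩
  · exact Or.inr ⟨b, a⟩
  · exact Or.inl ⟨b, a⟩

section
variable (h : Sys k R ρ) {i j : V} {p : ℕ} (hp : p ≤ k)
  (h0 : ∀ n, Walk R i j (0, n) → p ≤ n) (h1 : ∀ n, Walk R i j (1, n) → k - p ≤ n)
include h hp h0 h1

/-- one new edge and an old walk back, of total sign one, have length at least `k` -/
lemma one_new {x y : V} {s : ZMod 2} {N n : ℕ} (hE : NewE k i j p x y (s, N))
    (hw : Walk R y x (s + 1, n)) : k ≤ N + n := by
  have hw' : Walk R i j (s + 1, n) := by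
    rcases hE.1 with ⟨rfl, rfl⟩ | ⟨rfl, rfl⟩
    · exact h.walk_symm hw
    · exact hw
  rcases hE.2 with e | e
  · obtain ⟨rfl, rfl⟩ := Prod.mk.inj e
    have := h1 n (by simpa using hw')
    omega
  · obtain ⟨rfl, rfl⟩ := Prod.mk.inj e
    have := h0 n (by
      have e2 : (1 : ZMod 2) + 1 = 0 := by decide
      rwa [e2] at hw')
    omega

omit h h0 h1 in
lemma two_new {x y x' y' : V} {s s' : ZMod 2} {N N' : ℕ} (hE : NewE k i j p x y (s, N))
    (hE' : NewE k i j p x' y' (s', N')) (hs : s + s' = 1) : N + N' = k := by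
  have e11 : (1 : ZMod 2) + 1 = 0 := by decide
  rcases hE.2 with e | e <;> rcases hE'.2 with e' | e' <;>
    obtain ⟨rfl, rfl⟩ := Prod.mk.inj e <;> obtain ⟨rfl, rfl⟩ := Prod.mk.inj e'
  · exact absurd hs (by decide)
  · omega
  · omega
  · exact absurd hs (by rw [e11]; decide)

end

/-- walks with at most one new edge -/
def Few (R : V → V → Lab → Prop) (k : ℕ) (i j : V) (p : ℕ) (x y : V) (s : ZMod 2) (n : ℕ) : Prop :=
  Walk R x y (s, n) ∨ ∃ (a b : V) (s1 sE s2 : ZMod 2) (n1 nE n2 : ℕ), Walk R x a (s1, n1) ∧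
    NewE k i j p a b (sE, nE) ∧ Walk R b y (s2, n2) ∧ s1 + sE + s2 = s ∧ n1 + nE + n2 = n

lemma few_step (h : Sys k R ρ) {i j : V} {p : ℕ} (hp : p ≤ k)
    (h0 : ∀ n, Walk R i j (0, n) → p ≤ n) (h1 : ∀ n, Walk R i j (1, n) → k - p ≤ n)
    {x y z : V} {s s' : ZMod 2} {n n' : ℕ}
    (hs : R x y (s, n) ∨ NewE k i j p x y (s, n)) (hf : Few R k i j p y z s' n') :
    (∃ n'' ≤ n + n', Few R k i j p x z (s + s') n'') ∨
    (∃ n'', n'' + k ≤ n + n' ∧ Few R k i j p x z (s + s' + 1) n'') := by
  have e11 : (1 : ZMod 2) + 1 = 0 := by decide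
  rcases hs with hs | hE
  · left
    refine ⟨n + n', le_refl _, ?_⟩
    rcases hf with hf | ⟨a, b, s1, sE, s2, n1, nE, n2, w1, e, w2, hs', hn'⟩
    · left
      exact Walk.cons hs hf
    · right
      refine ⟨a, b, s + s1, sE, s2, n + n1, nE, n2, Walk.cons hs w1, e, w2, ?_, ?_⟩
      · rw [← hs']; ring
      · omega
  · rcases hf with hf | ⟨a, b, s1, sE, s2, n1, nE, n2, w1, e, w2, hs', hn'⟩
    · left
      refine ⟨n + n', le_refl _, Or.inr ⟨x, y, 0, s, s', 0, n, n', Walk.nil x, hE, hf, ?_, ?_⟩⟩
      · ring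
      · omega
    · -- two new edges
      have hxy : (b = x ∧ a = y) ∨ (b = y ∧ a = x) := by
        rcases hE.1 with ⟨rfl, rfl⟩ | ⟨rfl, rfl⟩ <;> rcases e.1 with ⟨rfl, rfl⟩ | ⟨rfl, rfl⟩ <;> simp
      rcases hxy with ⟨rfl, rfl⟩ | ⟨rfl, rfl⟩
      · -- closed part at x is new + w1 + new
        rcases z2 (s + s1 + sE) with ht | ht
        · left
          refine ⟨n2, by omega, Or.inl ?_⟩
          have : s + s' = s2 := by rw [← hs']; linear_combination ht
          rwa [this]
        · right
          refine ⟨n2, ?_, Or.inl ?_⟩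
          · rcases z2 s1 with hs1 | hs1
            · have := two_new hp hE e (by rw [← ht, hs1]; ring)
              omega
            · subst hs1
              have := h.good _ _ w1
              omega
          · have : s + s' + 1 = s2 := by rw [← hs']; linear_combination ht + e11
            rwa [this]
      · rcases z2 (s + s1) with ht | ht
        · left
          refine ⟨nE + n2, by omega, Or.inr ⟨a, b, 0, sE, s2, 0, nE, n2, Walk.nil a, e, w2, ?_, ?_⟩⟩
          · rw [← hs']; linear_combination -ht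
          · omega
        · right
          refine ⟨nE + n2, ?_, Or.inr ⟨a, b, 0, sE, s2, 0, nE, n2, Walk.nil a, e, w2, ?_, ?_⟩⟩
          · have hs1 : s1 = s + 1 := by
              have := z2_add_self s
              linear_combination ht - this
            rw [hs1] at w1
            have := one_new h hp h0 h1 hE w1
            omega
          · rw [← hs']; linear_combination -ht - e11
          · omega

lemma few_walk (h : Sys k R ρ) {i j : V} {p : ℕ} (hp : p ≤ k)
    (h0 : ∀ n, Walk R i j (0, n) → p ≤ n) (h1 : ∀ n, Walk R i j (1, n) → k - p ≤ n)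
    {x y : V} {m : Lab} (hw : Walk (fun x y m => R x y m ∨ NewE k i j p x y m) x y m) :
    (∃ n'' ≤ m.2, Few R k i j p x y m.1 n'') ∨
    (∃ n'', n'' + k ≤ m.2 ∧ Few R k i j p x y (m.1 + 1) n'') := by
  induction hw with
  | nil x => exact Or.inl ⟨0, le_refl _, Or.inl (Walk.nil x)⟩
  | @cons x y z m m' hs hw ih =>
    obtain ⟨s, n⟩ := m
    obtain ⟨s', n'⟩ := m'
    simp only [Prod.mk_add_mk] at *
    rcases ih with ⟨l, hl, hf⟩ | ⟨l, hl, hf⟩
    · rcases few_step h hp h0 h1 hs hf with ⟨l', hl', hf'⟩ | ⟨l', hl', hf'⟩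
      · exact Or.inl ⟨l', by omega, hf'⟩
      · exact Or.inr ⟨l', by omega, hf'⟩
    · rcases few_step h hp h0 h1 hs hf with ⟨l', hl', hf'⟩ | ⟨l', hl', hf'⟩
      · refine Or.inr ⟨l', by omega, ?_⟩
        rwa [← add_assoc] at hf'
      · refine Or.inl ⟨l', by omega, ?_⟩
        have : s + (s' + 1) + 1 = s + s' := by
          have e11 : (1 : ZMod 2) + 1 = 0 := by decide
          linear_combination e11
        rwa [this] at hf'

lemma sys_new (h : Sys k R ρ) {i j : V} {p : ℕ} (hp : p ≤ k) (hpar : (p : ZMod 2) = ρ i + ρ j)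
    (h0 : ∀ n, Walk R i j (0, n) → p ≤ n) (h1 : ∀ n, Walk R i j (1, n) → k - p ≤ n) :
    Sys k (fun x y m => R x y m ∨ NewE k i j p x y m) ρ := by
  refine ⟨?_, ?_, ?_⟩
  · rintro x y m (hr | hr)
    · exact Or.inl (h.symm _ _ _ hr)
    · exact Or.inr hr.symm
  · intro x n hw
    rcases few_walk h hp h0 h1 hw with ⟨l, hl, hf⟩ | ⟨l, hl, hf⟩
    · rcases hf with hf | ⟨a, b, s1, sE, s2, n1, nE, n2, w1, e, w2, hs', hn'⟩
      · exact (h.good _ _ hf).trans hl
      · have hw2 : Walk R b a (s2 + s1, n2 + n1) := w2.trans w1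
        have hs2 : s2 + s1 = sE + 1 := by
          simp only at hs'
          have := z2_add_self sE
          linear_combination hs' - this
        rw [hs2] at hw2
        have := one_new h hp h0 h1 e hw2
        simp only at hl
        omega
    · simp only at hl
      omega
  · rintro x y s n (hr | hr)
    · exact h.par _ _ _ _ hr
    · have hxy : ρ x + ρ y = ρ i + ρ j := by
        rcases hr.1 with ⟨rfl, rfl⟩ | ⟨rfl, rfl⟩
        · rfl
        · ring
      rw [hxy, ← hpar]
      rcases hr.2 with e | e <;> obtain ⟨rfl, rfl⟩ := Prod.mk.inj e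
      · ring
      · rw [Nat.cast_sub hp]
        have := z2_add_self (p : ZMod 2)
        linear_combination -this

/-- Saturation of a pair. -/
lemma exists_sat (h : Sys k R ρ) (hk : 1 ≤ k) (i j : V) :
    ∃ p ≤ k, Sys k (fun x y m => R x y m ∨ NewE k i j p x y m) ρ := by
  classical
  by_cases hex : ∃ n, n ≤ k ∧ Walk R i j (0, n)
  · have hmin := Nat.find_spec hex
    have hle := fun n => Nat.find_min' hex (m := n)
    set p := Nat.find hex with hpdef
    refine ⟨p, hmin.1, sys_new h hmin.1 ?_ ?_ ?_⟩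
    · have := h.walk_par hmin.2
      simpa using this
    · intro n hn
      by_cases hnk : n ≤ k
      · exact hle n ⟨hnk, hn⟩
      · have := hmin.1; omega
    · intro n hn
      have := h.good i (p + n) (by
        have := hmin.2.trans (h.walk_symm hn)
        simpa using this)
      omega
  · push Not at hex
    -- no short walk of sign 0
    obtain ⟨p, hp1, hp2, hpp⟩ : ∃ p, k - 1 ≤ p ∧ p ≤ k ∧ (p : ZMod 2) = ρ i + ρ j := by
      rcases z2 ((k : ZMod 2) + (ρ i + ρ j)) with hc | hc
      · refine ⟨k, by omega, le_refl _, ?_⟩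
        have := z2_add_self (ρ i + ρ j)
        linear_combination hc - this
      · refine ⟨k - 1, le_refl _, by omega, ?_⟩
        rw [Nat.cast_sub hk]
        have := z2_add_self (ρ i + ρ j)
        push_cast
        linear_combination hc - this
    refine ⟨p, hp2, sys_new h hp2 hpp ?_ ?_⟩
    · intro n hn
      by_contra hlt
      exact hex n (by omega) hn
    · intro n hn
      rcases Nat.eq_zero_or_pos n with rfl | hpos
      · have := h.walk_par hn
        simp only [Nat.cast_zero, mul_one] at this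
        have hpk : p = k := by
          by_contra hne
          have : p = k - 1 := by omega
          subst this
          rw [Nat.cast_sub hk] at hpp
          push_cast at hpp
          have h2 := z2_add_self (ρ i + ρ j)
          have : (1 : ZMod 2) = 0 := by
            linear_combination -this - hpp - h2
          exact absurd this (by decide)
        omega
      · omega

end Pool.Agent.Helper30.Guenin
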