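import Pool.Agent.Helper30.Guenin.Apex1

/-!
Balanced sides attached at two or three vertices.
-/

namespace Pool.Agent.Helper30.Guenin

open Finset

variable {V : Type*} {k : ℕ} {R : V → V → Lab → Prop} {ρ : V → ZMod 2}

lemma symmDiff_card_tri (A B C : Finset (Fin k)) :
    (symmDiff A C).card ≤ (symmDiff A B).card + (symmDiff B C).card := by
  have h : symmDiff A C ⊆ symmDiff A B ∪ symmDiff B C := by
    intro i
    simp only [Finset.mem_symmDiff, Finset.mem_union]
    tauto
  exact (Finset.card_le_card h).trans (Finset.card_union_le _ _)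

/-- A path between two sets. -/
lemma exists_path (A B : Finset (Fin k)) : ∃ P : ℕ → Finset (Fin k), P 0 = A ∧
    (∀ r, (symmDiff A B).card ≤ r → P r = B) ∧
    ∀ r r', r' ≤ r → (symmDiff (P r) (P r')).card ≤ r - r' := by
  classical
  set L := (symmDiff A B).toList with hL
  refine ⟨fun r => symmDiff A ((L.take r).toFinset), ?_, ?_, ?_⟩
  · simp
  · intro r hr
    have hlen : L.length = (symmDiff A B).card := by rw [hL, Finset.length_toList]
    have : L.take r = L := List.take_of_length_le (by omega)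
    simp only [this]
    have h2 : L.toFinset = symmDiff A B := by rw [hL]; simp
    rw [h2]
    ext i
    simp only [Finset.mem_symmDiff]
    tauto
  · intro r r' hr
    have hsub : symmDiff (symmDiff A ((L.take r).toFinset)) (symmDiff A ((L.take r').toFinset)) ⊆
        ((L.take r).drop r').toFinset := by
      intro i hi
      have h1 : L.take r' = (L.take r).take r' := by
        rw [List.take_take, min_eq_left hr]
      have h2 : i ∈ L.take r ↔ i ∈ L.take r' ∨ i ∈ (L.take r).drop r' := by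
        rw [h1, ← List.mem_append, List.take_append_drop]
      simp only [Finset.mem_symmDiff, List.mem_toFinset] at hi ⊢
      tauto
    refine (Finset.card_le_card hsub).trans ((List.toFinset_card_le _).trans ?_)
    rw [List.length_drop]
    have := List.length_take_le r L
    omega

/-- complement for sign one -/
def sw (s : ZMod 2) (A : Finset (Fin k)) : Finset (Fin k) := if s = 0 then A else Aᶜ

lemma sw_sw (s : ZMod 2) (A : Finset (Fin k)) : sw s (sw s A) = A := by
  unfold sw; split_ifs <;> simp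

lemma card_compl_right (A B : Finset (Fin k)) :
    (symmDiff A Bᶜ).card + (symmDiff A B).card = k := by
  have : symmDiff A Bᶜ = (symmDiff A B)ᶜ := by
    ext x
    simp only [Finset.mem_symmDiff, Finset.mem_compl]
    tauto
  rw [this, add_comm, Finset.card_add_card_compl, Fintype.card_fin]

lemma card_compl_left (A B : Finset (Fin k)) :
    (symmDiff Aᶜ B).card + (symmDiff A B).card = k := by
  rw [symmDiff_comm, symmDiff_comm A B]; exact card_compl_right B A

lemma card_sw_same (s : ZMod 2) (A B : Finset (Fin k)) :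
    (symmDiff (sw s A) (sw s B)).card = (symmDiff A B).card := by
  unfold sw
  split_ifs
  · rfl
  · have : symmDiff Aᶜ Bᶜ = symmDiff A B := by
      ext x
      simp only [Finset.mem_symmDiff, Finset.mem_compl]
      tauto
    rw [this]

lemma card_sw_diff {s t : ZMod 2} (h : s + t = 1) (A B : Finset (Fin k)) :
    (symmDiff (sw s A) (sw t B)).card + (symmDiff A B).card = k := by
  rcases z2 s with rfl | rfl
  · have : t = 1 := by simpa using h
    subst this
    simp only [sw, if_true, one_ne_zero, if_false]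
    exact card_compl_right A B
  · have : t = 0 := by
      revert h; revert t; decide
    subst this
    simp only [sw, if_true, one_ne_zero, if_false]
    exact card_compl_left A B

/-! ### long edges -/

/-- a length in `{k, k+1}` of prescribed parity -/
def longLen (k : ℕ) (r : ZMod 2) : ℕ := if (k : ZMod 2) = r then k else k + 1

lemma longLen_ge (k : ℕ) (r : ZMod 2) : k ≤ longLen k r := by
  unfold longLen; split_ifs <;> omega

lemma longLen_par (k : ℕ) (r : ZMod 2) : (longLen k r : ZMod 2) = r := by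
  unfold longLen
  split_ifs with h
  · exact h
  · push_cast
    rcases z2 (k : ZMod 2) with h1 | h1 <;> rcases z2 r with h2 | h2
    · exact absurd (h1.trans h2.symm) h
    · rw [h1, h2]; decide
    · rw [h1, h2]; decide
    · exact absurd (h1.trans h2.symm) h

/-- the system with long edges inside `X2` -/
def Long (k : ℕ) (R : V → V → Lab → Prop) (ρ σ : V → ZMod 2) (X2 : Set V) (x y : V) (m : Lab) :
    Prop :=
  R x y m ∨ (x ∈ X2 ∧ y ∈ X2 ∧ m = (σ x + σ y, longLen k (ρ x + ρ y + k * (σ x + σ y))))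

lemma sys_long (h : Sys k R ρ) (σ : V → ZMod 2) (X2 : Set V) :
    Sys k (Long k R ρ σ X2) ρ := by
  refine ⟨?_, ?_, ?_⟩
  · rintro x y m (hr | ⟨hx, hy, rfl⟩)
    · exact Or.inl (h.symm _ _ _ hr)
    · refine Or.inr ⟨hy, hx, ?_⟩
      rw [add_comm (σ x), add_comm (ρ x)]
  · intro x n hw
    have key : ∀ x y m, Walk (Long k R ρ σ X2) x y m → Walk R x y m ∨ k ≤ m.2 := by
      intro x y m hw
      induction hw with
      | nil x => exact Or.inl (Walk.nil x)
      | @cons x y z m m' h1 h2 ih =>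
        rcases h1 with h1 | ⟨_, _, rfl⟩
        · rcases ih with ih | ih
          · exact Or.inl (Walk.cons h1 ih)
          · right; simp only [Prod.snd_add]; omega
        · right
          simp only [Prod.snd_add]
          have := longLen_ge k (ρ x + ρ y + k * (σ x + σ y))
          omega
    rcases key _ _ _ hw with hw | hw
    · exact h.good _ _ hw
    · exact hw
  · rintro x y s n (hr | ⟨hx, hy, e⟩)
    · exact h.par _ _ _ _ hr
    · obtain ⟨rfl, rfl⟩ := Prod.mk.inj e
      exact longLen_par _ _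

/-- the side: edges inside `X2` whose sign agrees with `σ` -/
def SideRel (k : ℕ) (R : V → V → Lab → Prop) (ρ σ : V → ZMod 2) (X2 : Set V) (x y : V) (m : Lab) :
    Prop :=
  Long k R ρ σ X2 x y m ∧ x ∈ X2 ∧ y ∈ X2 ∧ m.1 = σ x + σ y

/-- distance in the side -/
noncomputable def sideDist (k : ℕ) (R : V → V → Lab → Prop) (ρ σ : V → ZMod 2) (X2 : Set V)
    (x y : V) : ℕ := sInf {n | ∃ s, Walk (SideRel k R ρ σ X2) x y (s, n)}

section side
variable (h : Sys k R ρ) (σ : V → ZMod 2) (X2 : Set V)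

lemma side_sign {x y : V} {m : Lab} (hw : Walk (SideRel k R ρ σ X2) x y m) :
    m.1 = σ x + σ y := by
  induction hw with
  | nil x => simp [z2_add_self]
  | @cons x y z m m' h1 h2 ih =>
    simp only [Prod.fst_add]
    rw [ih, h1.2.2.2]
    generalize σ x = a; generalize σ y = b; generalize σ z = c
    revert a b c; decide

lemma side_exists {x y : V} (hx : x ∈ X2) (hy : y ∈ X2) :
    {n | ∃ s, Walk (SideRel k R ρ σ X2) x y (s, n)}.Nonempty :=
  ⟨_, _, Walk.single ⟨Or.inr ⟨hx, hy, rfl⟩, hx, hy, rfl⟩⟩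

lemma side_walk {x y : V} (hx : x ∈ X2) (hy : y ∈ X2) :
    Walk (SideRel k R ρ σ X2) x y (σ x + σ y, sideDist k R ρ σ X2 x y) := by
  obtain ⟨s, hs⟩ := Nat.sInf_mem (side_exists (k := k) (R := R) (ρ := ρ) σ X2 hx hy)
  have := side_sign σ X2 hs
  simp only at this
  rw [this] at hs
  exact hs

lemma side_le {x y : V} {s : ZMod 2} {n : ℕ} (hw : Walk (SideRel k R ρ σ X2) x y (s, n)) :
    sideDist k R ρ σ X2 x y ≤ n := Nat.sInf_le ⟨s, hw⟩

lemma side_self (x : V) : sideDist k R ρ σ X2 x x = 0 := by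
  have := side_le (k := k) (R := R) (ρ := ρ) σ X2 (Walk.nil (R := SideRel k R ρ σ X2) x)
  omega

lemma side_tri {x y z : V} (hx : x ∈ X2) (hy : y ∈ X2) (hz : z ∈ X2) :
    sideDist k R ρ σ X2 x z ≤ sideDist k R ρ σ X2 x y + sideDist k R ρ σ X2 y z :=
  side_le σ X2 ((side_walk σ X2 hx hy).trans (side_walk σ X2 hy hz))

include h

lemma side_symm_rel : ∀ x y m, SideRel k R ρ σ X2 x y m → SideRel k R ρ σ X2 y x m := by
  rintro x y m ⟨h1, h2, h3, h4⟩
  exact ⟨(sys_long h σ X2).symm _ _ _ h1, h3, h2, by rw [h4, add_comm]⟩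

lemma side_comm {x y : V} (hx : x ∈ X2) (hy : y ∈ X2) :
    sideDist k R ρ σ X2 x y = sideDist k R ρ σ X2 y x :=
  le_antisymm (side_le σ X2 ((side_walk σ X2 hy hx).symm (side_symm_rel h σ X2)))
    (side_le σ X2 ((side_walk σ X2 hx hy).symm (side_symm_rel h σ X2)))

lemma side_par {x y : V} (hx : x ∈ X2) (hy : y ∈ X2) :
    (sideDist k R ρ σ X2 x y : ZMod 2) = ρ x + ρ y + k * (σ x + σ y) :=
  (sys_long h σ X2).walk_par ((side_walk σ X2 hx hy).mono (fun _ _ _ hr => hr.1))

end side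

/-! ### extension over the side -/

/-- Combine a packing on `X1` and a Lipschitz map on the side. -/
lemma combine (σ : V → ZMod 2) (X1 X2 : Set V)
    (hsplit : ∀ x y s n, R x y (s, n) → (x ∈ X1 ∧ y ∈ X1) ∨ (x ∈ X2 ∧ y ∈ X2 ∧ s = σ x + σ y))
    {f1 : V → Finset (Fin k)}
    (h1 : Pack k (fun x y m => R x y m ∧ x ∈ X1 ∧ y ∈ X1) f1)
    (g : V → Finset (Fin k))
    (hg : ∀ x ∈ X2, ∀ y ∈ X2, (symmDiff (g x) (g y)).card ≤ sideDist k R ρ σ X2 x y)
    (hgT : ∀ x ∈ X1 ∩ X2, sw (σ x) (g x) = f1 x) :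
    ∃ f : V → Finset (Fin k), Pack k R f := by
  classical
  refine ⟨fun x => if x ∈ X1 then f1 x else sw (σ x) (g x), ?_⟩
  have hf2 : ∀ x ∈ X2, (if x ∈ X1 then f1 x else sw (σ x) (g x)) = sw (σ x) (g x) := by
    intro x hx
    by_cases hx1 : x ∈ X1
    · rw [if_pos hx1, hgT x ⟨hx1, hx⟩]
    · rw [if_neg hx1]
  intro x y n
  constructor
  · intro hr
    rcases hsplit x y _ n hr with ⟨hx, hy⟩ | ⟨hx, hy, hs⟩
    · simp only [hx, hy, if_true]
      exact (h1 x y n).1 ⟨hr, hx, hy⟩
    · simp only [hf2 x hx, hf2 y hy]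
      have e : σ x = σ y := z2_eq_of_add hs.symm
      rw [e, card_sw_same]
      exact (hg x hx y hy).trans (side_le σ X2 (Walk.single ⟨Or.inl hr, hx, hy, hs⟩))
  · intro hr
    rcases hsplit x y _ n hr with ⟨hx, hy⟩ | ⟨hx, hy, hs⟩
    · simp only [hx, hy, if_true]
      exact (h1 x y n).2 ⟨hr, hx, hy⟩
    · simp only [hf2 x hx, hf2 y hy]
      have := card_sw_diff hs.symm (g x) (g y)
      have h2 := (hg x hx y hy).trans (side_le σ X2 (Walk.single ⟨Or.inl hr, hx, hy, hs⟩))
      omega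

/-! ### two attachment vertices -/

/-- `X1` with the new edge -/
def EdgeRel (R : V → V → Lab → Prop) (σ : V → ZMod 2) (X1 : Set V) (a b : V) (d : ℕ)
    (x y : V) (m : Lab) : Prop :=
  (R x y m ∧ x ∈ X1 ∧ y ∈ X1) ∨
    (((x = a ∧ y = b) ∨ (x = b ∧ y = a)) ∧ m = (σ a + σ b, d))

lemma side_walk_long (h : Sys k R ρ) (σ : V → ZMod 2) (X2 : Set V) {a b x y : V}
    (ha : a ∈ X2) (hb : b ∈ X2) (hxy : (x = a ∧ y = b) ∨ (x = b ∧ y = a)) :
    Walk (Long k R ρ σ X2) x y (σ a + σ b, sideDist k R ρ σ X2 a b) := by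
  have hw := (side_walk (k := k) (R := R) (ρ := ρ) σ X2 ha hb).mono (R' := Long k R ρ σ X2)
    (fun _ _ _ hr => hr.1)
  rcases hxy with ⟨h1, h2⟩ | ⟨h1, h2⟩
  · rw [h1, h2]; exact hw
  · rw [h1, h2]; exact (sys_long h σ X2).walk_symm hw

lemma sys_edge (h : Sys k R ρ) (σ : V → ZMod 2) (X1 X2 : Set V) (a b : V) (ha : a ∈ X2)
    (hb : b ∈ X2) : Sys k (EdgeRel R σ X1 a b (sideDist k R ρ σ X2 a b)) ρ := by
  refine ⟨?_, ?_, ?_⟩
  · rintro x y m (⟨h1, h2, h3⟩ | ⟨h1, h2⟩)
    · exact Or.inl ⟨h.symm _ _ _ h1, h3, h2⟩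
    · refine Or.inr ⟨?_, h2⟩
      rcases h1 with ⟨h3, h4⟩ | ⟨h3, h4⟩
      · exact Or.inr ⟨h4, h3⟩
      · exact Or.inl ⟨h4, h3⟩
  · intro x n hw
    refine (sys_long h σ X2).good x n ?_
    have key : ∀ x y m, Walk (EdgeRel R σ X1 a b (sideDist k R ρ σ X2 a b)) x y m →
        Walk (Long k R ρ σ X2) x y m := by
      intro x y m hw
      induction hw with
      | nil x => exact Walk.nil x
      | @cons x y z m m' h1 h2 ih =>
        rcases h1 with ⟨h3, _, _⟩ | ⟨h3, rfl⟩
        · exact Walk.cons (Or.inl h3) ih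
        · exact (side_walk_long h σ X2 ha hb h3).trans ih
    exact key _ _ _ hw
  · rintro x y s n (⟨h1, h2, h3⟩ | ⟨h1, h2⟩)
    · exact h.par _ _ _ _ h1
    · obtain ⟨rfl, rfl⟩ := Prod.mk.inj h2
      rw [side_par h σ X2 ha hb]
      rcases h1 with ⟨h3, h4⟩ | ⟨h3, h4⟩
      · rw [h3, h4]
      · rw [h3, h4, add_comm (ρ a)]

/-- A balanced side with two attachment vertices can be replaced by an edge. -/
lemma solve_edge (h : Sys k R ρ) (σ : V → ZMod 2) (X1 X2 : Set V) (a b : V)
    (hT : X1 ∩ X2 = {a, b})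
    (hsplit : ∀ x y s n, R x y (s, n) → (x ∈ X1 ∧ y ∈ X1) ∨ (x ∈ X2 ∧ y ∈ X2 ∧ s = σ x + σ y))
    {f1 : V → Finset (Fin k)}
    (h1 : Pack k (EdgeRel R σ X1 a b (sideDist k R ρ σ X2 a b)) f1) :
    ∃ f : V → Finset (Fin k), Pack k R f := by
  have ha : a ∈ X1 ∩ X2 := by rw [hT]; simp
  have hb : b ∈ X1 ∩ X2 := by rw [hT]; simp
  set d := sideDist k R ρ σ X2 a b with hd
  -- the distance between the two normalised sets
  have hdist : (symmDiff (sw (σ a) (f1 a)) (sw (σ b) (f1 b))).card ≤ d := by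
    rcases z2 (σ a + σ b) with hs | hs
    · have e : σ a = σ b := z2_eq_of_add hs
      rw [e, card_sw_same]
      exact (h1 a b d).1 (Or.inr ⟨Or.inl ⟨rfl, rfl⟩, by rw [hs]⟩)
    · have e1 := card_sw_diff hs (f1 a) (f1 b)
      have e2 := (h1 a b d).2 (Or.inr ⟨Or.inl ⟨rfl, rfl⟩, by rw [hs]⟩)
      omega
  obtain ⟨P, hP0, hP1, hP2⟩ := exists_path (sw (σ a) (f1 a)) (sw (σ b) (f1 b))
  have hP2' : ∀ r r' e, r ≤ r' + e → r' ≤ r + e → (symmDiff (P r) (P r')).card ≤ e := by
    intro r r' e h1 h2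
    rcases le_total r' r with hle | hle
    · have := hP2 r r' hle; omega
    · have := hP2 r' r hle
      rw [symmDiff_comm] at this; omega
  refine combine (ρ := ρ) σ X1 X2 hsplit (f1 := f1) ?_ (fun v => P (sideDist k R ρ σ X2 a v)) ?_ ?_
  · intro x y n
    exact ⟨fun hr => (h1 x y n).1 (Or.inl hr), fun hr => (h1 x y n).2 (Or.inl hr)⟩
  · intro x hx y hy
    have e1 := side_tri (k := k) (R := R) (ρ := ρ) σ X2 ha.2 hx hy
    have e2 := side_tri (k := k) (R := R) (ρ := ρ) σ X2 ha.2 hy hx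
    rw [side_comm h σ X2 hy hx] at e2
    exact hP2' _ _ _ e2 e1
  · intro x hx
    rw [hT] at hx
    rcases hx with hx | hx
    · simp only [hx]
      rw [side_self, hP0, sw_sw]
    · have hx' : x = b := hx
      simp only [hx']
      rw [hP1 _ hdist, sw_sw]

end Pool.Agent.Helper30.Guenin
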