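import Pool.Agent.Helper30.Guenin.Glue

/-!
Systems on at most four vertices.
-/

namespace Pool.Agent.Helper30.Guenin

open Finset

lemma exists_fun_counts {κ : Type*} [Fintype κ] [DecidableEq κ] {k : ℕ} (N : κ → ℕ)
    (hN : ∑ c, N c = k) : ∃ g : Fin k → κ, ∀ c, (univ.filter (fun i => g i = c)).card = N c := by
  classical
  have hc : Fintype.card (Σ c, Fin (N c)) = k := by simp [hN]
  let e : (Σ c, Fin (N c)) ≃ Fin k := Fintype.equivFinOfCardEq hc
  refine ⟨fun i => (e.symm i).1, ?_⟩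
  intro c
  have h1 : (univ.filter (fun i => (e.symm i).1 = c)) =
      (univ : Finset (Fin (N c))).map
        ⟨fun j => e ⟨c, j⟩, fun a b hab => by
          have := e.injective hab
          simpa using this⟩ := by
    ext i
    simp only [Finset.mem_filter, Finset.mem_univ, true_and, Finset.mem_map,
      Function.Embedding.coeFn_mk]
    constructor
    · rintro rfl
      exact ⟨(e.symm i).2, by simp⟩
    · rintro ⟨j, rfl⟩
      simp
  rw [h1, Finset.card_map, Finset.card_univ, Fintype.card_fin]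

lemma card_filter_counts {κ : Type*} [Fintype κ] [DecidableEq κ] {k : ℕ} {N : κ → ℕ}
    {g : Fin k → κ} (hg : ∀ c, (univ.filter (fun i => g i = c)).card = N c) (P : κ → Bool) :
    (univ.filter (fun i => P (g i) = true)).card = ∑ c, if P c = true then N c else 0 := by
  classical
  rw [Finset.card_eq_sum_card_fiberwise (f := g) (t := univ) (by intro x _; simp)]
  apply Finset.sum_congr rfl
  intro c _
  rw [Finset.filter_filter]
  by_cases hP : P c = true
  · rw [if_pos hP, ← hg c]
    congr 1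
    ext i
    simp only [Finset.mem_filter, Finset.mem_univ, true_and]
    constructor
    · exact fun h => h.2
    · rintro rfl; exact ⟨hP, rfl⟩
  · rw [if_neg hP, Finset.card_eq_zero]
    ext i
    simp only [Finset.mem_filter, Finset.mem_univ, true_and, Finset.notMem_empty, iff_false]
    rintro ⟨h1, rfl⟩
    exact hP h1

/-- the conditions on the three distances of a triple -/
def Tri (k a b c : ℕ) : Prop :=
  a ≤ b + c ∧ b ≤ a + c ∧ c ≤ a + b ∧ a + b + c ≤ 2 * k ∧ (a + b + c) % 2 = 0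

lemma four_aux {k p01 p02 p03 p12 p13 p23 : ℕ} (h012 : Tri k p01 p02 p12)
    (h013 : Tri k p01 p03 p13) (h023 : Tri k p02 p03 p23) (h123 : Tri k p12 p13 p23)
    (hS2 : p02 + p13 ≤ p01 + p23) (hS3 : p03 + p12 ≤ p01 + p23) :
    ∃ F0 F1 F2 F3 : Finset (Fin k), (symmDiff F0 F1).card = p01 ∧ (symmDiff F0 F2).card = p02 ∧
      (symmDiff F0 F3).card = p03 ∧ (symmDiff F1 F2).card = p12 ∧ (symmDiff F1 F3).card = p13 ∧
      (symmDiff F2 F3).card = p23 := by
  obtain ⟨a1, a2, a3, a4, a5⟩ := h012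
  obtain ⟨b1, b2, b3, b4, b5⟩ := h013
  obtain ⟨c1, c2, c3, c4, c5⟩ := h023
  obtain ⟨d1, d2, d3, d4, d5⟩ := h123
  -- the coefficients
  obtain ⟨x0, hx0⟩ : ∃ x0, p02 + p03 = p23 + 2 * x0 := ⟨(p02 + p03 - p23) / 2, by omega⟩
  obtain ⟨x1, hx1⟩ : ∃ x1, p12 + p13 = p23 + 2 * x1 := ⟨(p12 + p13 - p23) / 2, by omega⟩
  obtain ⟨x2, hx2⟩ : ∃ x2, p02 + p12 = p01 + 2 * x2 := ⟨(p02 + p12 - p01) / 2, by omega⟩
  obtain ⟨x3, hx3⟩ : ∃ x3, p03 + p13 = p01 + 2 * x3 := ⟨(p03 + p13 - p01) / 2, by omega⟩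
  obtain ⟨y2, hy2⟩ : ∃ y2, p01 + p23 = p02 + p13 + 2 * y2 :=
    ⟨(p01 + p23 - (p02 + p13)) / 2, by omega⟩
  obtain ⟨y3, hy3⟩ : ∃ y3, p01 + p23 = p03 + p12 + 2 * y3 :=
    ⟨(p01 + p23 - (p03 + p12)) / 2, by omega⟩
  obtain ⟨t, ht0, ht1, ht2, ht3, htk⟩ : ∃ t, t ≤ x0 ∧ t ≤ x1 ∧ t ≤ x2 ∧ t ≤ x3 ∧
      x0 + x1 + x2 + x3 + y2 + y3 ≤ k + t :=
    ⟨x0 + x1 + x2 + x3 + y2 + y3 - k, by omega, by omega, by omega, by omega, by omega⟩
  let N : Bool × Bool × Bool → ℕ := fun c => match c with
    | (false, false, false) => k + t - (x0 + x1 + x2 + x3 + y2 + y3)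
    | (true, true, true) => x0 - t
    | (true, false, false) => x1 - t
    | (false, true, false) => x2 - t
    | (false, false, true) => x3 - t
    | (false, true, true) => t
    | (true, false, true) => y2 + t
    | (true, true, false) => y3 + t
  have hN : ∑ c, N c = k := by
    simp only [Fintype.sum_prod_type, Fintype.sum_bool, N]
    omega
  obtain ⟨g, hg⟩ := exists_fun_counts N hN
  have key : ∀ P : Bool × Bool × Bool → Bool,
      (univ.filter (fun i => P (g i) = true)).card = ∑ c, if P c = true then N c else 0 :=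
    fun P => card_filter_counts hg P
  have key2 : ∀ (A B : Bool × Bool × Bool → Bool),
      (symmDiff (univ.filter (fun i => A (g i) = true)) (univ.filter (fun i => B (g i) = true))).card
        = ∑ c, if xor (A c) (B c) = true then N c else 0 := by
    intro A B
    rw [← key (fun c => xor (A c) (B c))]
    congr 1
    ext i
    simp only [Finset.mem_symmDiff, Finset.mem_filter, Finset.mem_univ, true_and]
    cases A (g i) <;> cases B (g i) <;> simp
  refine ⟨univ.filter (fun i => (fun _ : Bool × Bool × Bool => false) (g i) = true),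
    univ.filter (fun i => (fun c : Bool × Bool × Bool => c.1) (g i) = true),
    univ.filter (fun i => (fun c : Bool × Bool × Bool => c.2.1) (g i) = true),
    univ.filter (fun i => (fun c : Bool × Bool × Bool => c.2.2) (g i) = true),
    ?_, ?_, ?_, ?_, ?_, ?_⟩
  · refine (key2 (fun _ => false) (fun c => c.1)).trans ?_
    simp [Fintype.sum_prod_type, N]
    omega
  · refine (key2 (fun _ => false) (fun c => c.2.1)).trans ?_
    simp [Fintype.sum_prod_type, N]
    omega
  · refine (key2 (fun _ => false) (fun c => c.2.2)).trans ?_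
    simp [Fintype.sum_prod_type, N]
    omega
  · refine (key2 (fun c => c.1) (fun c => c.2.1)).trans ?_
    simp [Fintype.sum_prod_type, N]
    omega
  · refine (key2 (fun c => c.1) (fun c => c.2.2)).trans ?_
    simp [Fintype.sum_prod_type, N]
    omega
  · refine (key2 (fun c => c.2.1) (fun c => c.2.2)).trans ?_
    simp [Fintype.sum_prod_type, N]
    omega

lemma Tri.perm1 {k a b c : ℕ} (h : Tri k a b c) : Tri k b a c := by
  unfold Tri at *; omega

lemma Tri.perm2 {k a b c : ℕ} (h : Tri k a b c) : Tri k a c b := by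
  unfold Tri at *; omega

/-- Four points. -/
lemma four {k : ℕ} (P : Fin 4 → Fin 4 → ℕ) (hd : ∀ i, P i i = 0) (hs : ∀ i j, P i j = P j i)
    (ht : ∀ i j l, Tri k (P i j) (P i l) (P j l)) :
    ∃ F : Fin 4 → Finset (Fin k), ∀ i j, (symmDiff (F i) (F j)).card = P i j := by
  have fin : ∀ F0 F1 F2 F3 : Finset (Fin k), (symmDiff F0 F1).card = P 0 1 →
      (symmDiff F0 F2).card = P 0 2 → (symmDiff F0 F3).card = P 0 3 →
      (symmDiff F1 F2).card = P 1 2 → (symmDiff F1 F3).card = P 1 3 →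
      (symmDiff F2 F3).card = P 2 3 →
      ∃ F : Fin 4 → Finset (Fin k), ∀ i j, (symmDiff (F i) (F j)).card = P i j := by
    intro F0 F1 F2 F3 h01 h02 h03 h12 h13 h23
    refine ⟨![F0, F1, F2, F3], ?_⟩
    have h10 := h01; have h20 := h02; have h30 := h03; have h21 := h12; have h31 := h13
    have h32 := h23
    rw [symmDiff_comm, hs] at h10 h20 h30 h21 h31 h32
    intro i j
    fin_cases i <;> fin_cases j <;>
      simp only [Fin.zero_eta, Fin.mk_one, Fin.reduceFinMk, Matrix.cons_val_zero,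
        Matrix.cons_val_one, Matrix.cons_val, Fin.isValue] <;>
      first
        | (rw [symmDiff_self_card, hd])
        | assumption
  have t012 := ht 0 1 2
  have t013 := ht 0 1 3
  have t023 := ht 0 2 3
  have t123 := ht 1 2 3
  -- which pairing is largest
  by_cases c1 : P 0 2 + P 1 3 ≤ P 0 1 + P 2 3 ∧ P 0 3 + P 1 2 ≤ P 0 1 + P 2 3
  · obtain ⟨F0, F1, F2, F3, h01, h02, h03, h12, h13, h23⟩ := four_aux t012 t013 t023 t123 c1.1 c1.2
    exact fin F0 F1 F2 F3 h01 h02 h03 h12 h13 h23
  by_cases c2 : P 0 1 + P 2 3 ≤ P 0 2 + P 1 3 ∧ P 0 3 + P 1 2 ≤ P 0 2 + P 1 3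
  · -- swap 1 and 2
    obtain ⟨F0, F2, F1, F3, h02, h01, h03, h21, h23, h13⟩ :=
      four_aux (k := k) (p01 := P 0 2) (p02 := P 0 1) (p03 := P 0 3) (p12 := P 1 2)
        (p13 := P 2 3) (p23 := P 1 3) t012.perm1 t023 t013
        (by unfold Tri at *; omega) c2.1 c2.2
    rw [symmDiff_comm] at h21
    exact fin F0 F1 F2 F3 h01 h02 h03 h21 h13 h23
  · -- pairing 03|12 is the largest: order 0 3 2 1
    obtain ⟨F0, F3, F2, F1, h03, h02, h01, h32, h31, h21⟩ :=
      four_aux (k := k) (p01 := P 0 3) (p02 := P 0 2) (p03 := P 0 1) (p12 := P 2 3)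
        (p13 := P 1 3) (p23 := P 1 2) (by unfold Tri at *; omega) (by unfold Tri at *; omega)
        (by unfold Tri at *; omega) (by unfold Tri at *; omega) (by omega) (by omega)
    rw [symmDiff_comm] at h32 h31 h21
    exact fin F0 F1 F2 F3 h01 h02 h03 h21 h31 h32

variable {V : Type*} {k : ℕ} {R : V → V → Lab → Prop} {ρ : V → ZMod 2}

/-- Systems on at most four vertices, all pairs saturated. -/
lemma pack_small (h : Sys k R ρ) (X : Set V) (hX : X.Finite) (hc : X.ncard ≤ 4)
    (hsub : ∀ x y m, R x y m → x ∈ X ∧ y ∈ X)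
    (hsat : ∀ x ∈ X, ∀ y ∈ X, x ≠ y → ∃ p ≤ k, R x y (0, p) ∧ R x y (1, k - p)) :
    ∃ f : V → Finset (Fin k), Pack k R f := by
  classical
  rcases X.eq_empty_or_nonempty with hemp | ⟨x0, hx0⟩
  · refine ⟨fun _ => ∅, ?_⟩
    intro x y n
    constructor <;> intro hr <;> have := (hsub x y _ hr).1 <;> rw [hemp] at this <;>
      exact absurd this (Set.notMem_empty x)
  -- enumeration
  obtain ⟨e, heX, he⟩ : ∃ e : Fin 4 → V, (∀ i, e i ∈ X) ∧ ∀ x ∈ X, ∃ i, e i = x := by
    set L := hX.toFinset.toList with hL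
    have hlen : L.length ≤ 4 := by
      rw [hL, Finset.length_toList, ← Set.ncard_eq_toFinset_card X hX]; exact hc
    have hmem : ∀ x, x ∈ L ↔ x ∈ X := by intro x; simp [hL]
    refine ⟨fun i => L.getD i.1 x0, ?_, ?_⟩
    · intro i
      show L.getD i.1 x0 ∈ X
      by_cases hi : i.1 < L.length
      · rw [List.getD_eq_getElem _ _ hi, ← hmem]
        exact List.getElem_mem hi
      · rw [List.getD_eq_default _ _ (by omega)]; exact hx0
    · intro x hx
      obtain ⟨n, hn, rfl⟩ := List.getElem_of_mem ((hmem x).mpr hx)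
      exact ⟨⟨n, by omega⟩, List.getD_eq_getElem _ _ hn⟩
  -- the distances
  have hex : ∀ x y, ∃ p : ℕ, (x = y → p = 0) ∧ (x ∈ X → y ∈ X → x ≠ y →
      p ≤ k ∧ R x y (0, p) ∧ R x y (1, k - p)) := by
    intro x y
    by_cases hxy : x = y
    · exact ⟨0, fun _ => rfl, fun _ _ hne => absurd hxy hne⟩
    · by_cases hxX : x ∈ X ∧ y ∈ X
      · obtain ⟨p, hp⟩ := hsat x hxX.1 y hxX.2 hxy
        exact ⟨p, fun he => absurd he hxy, fun _ _ _ => hp⟩
      · exact ⟨0, fun _ => rfl, fun h1 h2 _ => absurd ⟨h1, h2⟩ hxX⟩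
  choose P hP0 hP using hex
  -- bounds from goodness
  have hle : ∀ x ∈ X, ∀ y ∈ X, P x y ≤ k := by
    intro x hx y hy
    by_cases hxy : x = y
    · rw [hP0 x y hxy]; exact Nat.zero_le _
    · exact (hP x y hx hy hxy).1
  have hw0 : ∀ x ∈ X, ∀ y ∈ X, Walk R x y (0, P x y) := by
    intro x hx y hy
    by_cases hxy : x = y
    · subst hxy; rw [hP0 x x rfl]; exact Walk.nil x
    · exact Walk.single (hP x y hx hy hxy).2.1
  have low0 : ∀ x ∈ X, ∀ y ∈ X, ∀ n, Walk R x y (0, n) → P x y ≤ n := by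
    intro x hx y hy n hw
    by_cases hxy : x = y
    · rw [hP0 x y hxy]; exact Nat.zero_le _
    · obtain ⟨a, _, c⟩ := hP x y hx hy hxy
      have := h.good x (n + (k - P x y)) (by
        have := hw.trans (h.walk_symm (Walk.single c))
        simpa using this)
      omega
  have low1 : ∀ x ∈ X, ∀ y ∈ X, ∀ n, Walk R x y (1, n) → k ≤ n + P x y := by
    intro x hx y hy n hw
    have := h.good x (n + P x y) (by
      have := hw.trans (h.walk_symm (hw0 x hx y hy))
      simpa using this)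
    omega
  have hsymm : ∀ x ∈ X, ∀ y ∈ X, P x y = P y x := by
    intro x hx y hy
    have e1 := low0 x hx y hy _ (h.walk_symm (hw0 y hy x hx))
    have e2 := low0 y hy x hx _ (h.walk_symm (hw0 x hx y hy))
    omega
  have htri : ∀ x ∈ X, ∀ y ∈ X, ∀ z ∈ X, P x y ≤ P x z + P z y := by
    intro x hx y hy z hz
    exact low0 x hx y hy _ (by
      have := (hw0 x hx z hz).trans (hw0 z hz y hy)
      simpa using this)
  have hper : ∀ x ∈ X, ∀ y ∈ X, ∀ z ∈ X, P x y + P y z + P x z ≤ 2 * k := by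
    intro x hx y hy z hz
    by_cases hxy : x = y
    · subst hxy; have := hP0 x x rfl; have := hle x hx z hz; omega
    by_cases hyz : y = z
    · subst hyz; have := hP0 y y rfl; have := hle x hx y hy; omega
    have h1 := Walk.single (hP x y hx hy hxy).2.2
    have h2 := Walk.single (hP y z hy hz hyz).2.2
    have h3 := h1.trans h2
    have e11 : (1 : ZMod 2) + 1 = 0 := by decide
    simp only [Prod.mk_add_mk, e11] at h3
    have := low0 x hx z hz _ h3
    have := hle x hx y hy
    have := hle y hy z hz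
    omega
  have hpar : ∀ x ∈ X, ∀ y ∈ X, (P x y : ZMod 2) = ρ x + ρ y := by
    intro x hx y hy
    have := h.walk_par (hw0 x hx y hy)
    simpa using this
  have hpar3 : ∀ x ∈ X, ∀ y ∈ X, ∀ z ∈ X, (P x y + P y z + P x z) % 2 = 0 := by
    intro x hx y hy z hz
    have : ((P x y + P y z + P x z : ℕ) : ZMod 2) = 0 := by
      push_cast
      rw [hpar x hx y hy, hpar y hy z hz, hpar x hx z hz]
      have h1 := z2_add_self (ρ x)
      have h2 := z2_add_self (ρ y)
      have h3 := z2_add_self (ρ z)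
      linear_combination h1 + h2 + h3
    rw [ZMod.natCast_eq_zero_iff] at this
    omega
  obtain ⟨F, hF⟩ := four (k := k) (fun i j => P (e i) (e j)) (fun i => hP0 _ _ rfl)
    (fun i j => hsymm _ (heX i) _ (heX j)) (by
      intro i j l
      have t1 := htri _ (heX i) _ (heX j) _ (heX l)
      have t2 := htri _ (heX i) _ (heX l) _ (heX j)
      have t3 := htri _ (heX j) _ (heX l) _ (heX i)
      have t4 := hper _ (heX i) _ (heX j) _ (heX l)
      have t5 := hpar3 _ (heX i) _ (heX j) _ (heX l)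
      have s1 := hsymm _ (heX i) _ (heX j)
      have s2 := hsymm _ (heX i) _ (heX l)
      have s3 := hsymm _ (heX j) _ (heX l)
      unfold Tri
      omega)
  -- choose indices
  have hidx : ∀ x, ∃ i : Fin 4, x ∈ X → e i = x := by
    intro x
    by_cases hx : x ∈ X
    · obtain ⟨i, hi⟩ := he x hx
      exact ⟨i, fun _ => hi⟩
    · exact ⟨0, fun hx' => absurd hx' hx⟩
  choose idx hidx using hidx
  refine ⟨fun x => F (idx x), ?_⟩
  intro x y n
  constructor
  · intro hr
    obtain ⟨hx, hy⟩ := hsub x y _ hr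
    simp only
    rw [hF, hidx x hx, hidx y hy]
    exact low0 x hx y hy n (Walk.single hr)
  · intro hr
    obtain ⟨hx, hy⟩ := hsub x y _ hr
    simp only
    rw [hF, hidx x hx, hidx y hy]
    have := low1 x hx y hy n (Walk.single hr)
    omega

end Pool.Agent.Helper30.Guenin
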