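import Pool.Agent.Helper30.Guenin.Side

/-!
A balanced side with three attachment vertices can be replaced by a tripod.
-/

namespace Pool.Agent.Helper30.Guenin

open Finset

variable {V : Type*} {k : ℕ} {R : V → V → Lab → Prop} {ρ : V → ZMod 2}

/-- `X1` with the three legs ending in the new vertex `b` -/
def TripodRel (R : V → V → Lab → Prop) (σ : V → ZMod 2) (X1 T : Set V) (b : V) (α : V → ℕ)
    (x y : V) (m : Lab) : Prop :=
  (R x y m ∧ x ∈ X1 ∧ y ∈ X1) ∨ (x = b ∧ y ∈ T ∧ m = (σ b + σ y, α y)) ∨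
    (y = b ∧ x ∈ T ∧ m = (σ b + σ x, α x))

lemma sys_tripod (h : Sys k R ρ) (σ : V → ZMod 2) (X1 X2 T : Set V) (b : V) (α : V → ℕ)
    (hT1 : ∀ t ∈ T, t ∈ X1) (hT2 : ∀ t ∈ T, t ∈ X2) (hb : b ∉ X1)
    (hα : ∀ t ∈ T, ∀ t' ∈ T, sideDist k R ρ σ X2 t t' ≤ α t + α t') (r : ZMod 2)
    (hr : ∀ t ∈ T, (α t : ZMod 2) = r + ρ t + k * (σ b + σ t)) [DecidableEq V] :
    Sys k (TripodRel R σ X1 T b α) (Function.update ρ b r) := by
  have hne : ∀ x ∈ X1, x ≠ b := fun x hx e => hb (e ▸ hx)
  have hsymm : ∀ x y m, TripodRel R σ X1 T b α x y m → TripodRel R σ X1 T b α y x m := by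
    rintro x y m (⟨h1, h2, h3⟩ | ⟨h1, h2, h3⟩ | ⟨h1, h2, h3⟩)
    · exact Or.inl ⟨h.symm _ _ _ h1, h3, h2⟩
    · exact Or.inr (Or.inr ⟨h1, h2, h3⟩)
    · exact Or.inr (Or.inl ⟨h1, h2, h3⟩)
  -- translating walks
  have key : ∀ x y m, Walk (TripodRel R σ X1 T b α) x y m → y ≠ b →
      (x ≠ b → ∃ n', n' ≤ m.2 ∧ Walk (Long k R ρ σ X2) x y (m.1, n')) ∧
      (x = b → ∃ t ∈ T, ∃ n', n' + α t ≤ m.2 ∧
        Walk (Long k R ρ σ X2) t y (m.1 + σ b + σ t, n')) := by
    intro x y m hw
    induction hw with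
    | nil x => exact fun hy => ⟨fun _ => ⟨0, le_refl _, Walk.nil x⟩, fun hx => absurd hx hy⟩
    | @cons x y z m m' h1 h2 ih =>
      intro hz
      obtain ⟨ih1, ih2⟩ := ih hz
      rcases h1 with ⟨h3, h4, h5⟩ | ⟨h3, h4, h5⟩ | ⟨h3, h4, h5⟩
      · refine ⟨fun _ => ?_, fun hx => absurd hx (hne x h4)⟩
        obtain ⟨n', hn', hw'⟩ := ih1 (hne y h5)
        refine ⟨m.2 + n', ?_, ?_⟩
        · simp only [Prod.snd_add]; omega
        · have := Walk.cons (R := Long k R ρ σ X2) (Or.inl h3) hw'
          exact this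
      · refine ⟨fun hx => absurd h3 hx, fun _ => ?_⟩
        obtain ⟨n', hn', hw'⟩ := ih1 (hne y (hT1 y h4))
        refine ⟨y, h4, n', ?_, ?_⟩
        · simp only [Prod.snd_add, h5]; omega
        · have e : (m + m').1 + σ b + σ y = m'.1 := by
            simp only [Prod.fst_add, h5]
            generalize σ b = a1; generalize σ y = a2; generalize m'.1 = a3
            revert a1 a2 a3; decide
          rw [e]; exact hw'
      · refine ⟨fun _ => ?_, fun hx => ?_⟩
        · obtain ⟨t, ht, n', hn', hw'⟩ := ih2 h3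
          have hd := hα x h4 t ht
          have hws := (side_walk (k := k) (R := R) (ρ := ρ) σ X2 (hT2 x h4) (hT2 t ht)).mono
            (R' := Long k R ρ σ X2) (fun _ _ _ hr => hr.1)
          have := hws.trans hw'
          refine ⟨sideDist k R ρ σ X2 x t + n', ?_, ?_⟩
          · simp only [Prod.snd_add, h5]; omega
          · have e : (m + m').1 = σ x + σ t + (m'.1 + σ b + σ t) := by
              simp only [Prod.fst_add, h5]
              generalize σ b = a1; generalize σ x = a2; generalize m'.1 = a3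
              generalize σ t = a4
              revert a1 a2 a3 a4; decide
            rw [e]; exact this
        · exact absurd hx (hne x (hT1 x h4))
  refine ⟨hsymm, ?_, ?_⟩
  · intro x n hw
    by_cases hx : x = b
    · -- rotate
      have hcase := hw
      rcases hcase.last with ⟨_, h0⟩ | ⟨z, m1, m2, hw1, hr1, he⟩
      · exact absurd (congrArg Prod.fst h0) (by simp)
      · -- z is in T
        have hzb : z ≠ b := by
          rcases hr1 with ⟨_, _, h5⟩ | ⟨h3, h4, _⟩ | ⟨_, h4, _⟩
          · exact absurd hx (hne x h5)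
          · exact absurd hx (hne x (hT1 x h4))
          · exact hne z (hT1 z h4)
        have hw2 : Walk (TripodRel R σ X1 T b α) z z (m2 + m1) :=
          (Walk.single hr1).trans hw1
        rw [add_comm, ← he] at hw2
        obtain ⟨n', hn', hw'⟩ := (key _ _ _ hw2 hzb).1 hzb
        have := (sys_long h σ X2).good _ _ hw'
        simp only at hn'
        omega
    · obtain ⟨n', hn', hw'⟩ := (key _ _ _ hw hx).1 hx
      have := (sys_long h σ X2).good _ _ hw'
      simp only at hn'
      omega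
  · rintro x y s n (⟨h1, h2, h3⟩ | ⟨h1, h2, h3⟩ | ⟨h1, h2, h3⟩)
    · rw [Function.update_of_ne (hne x h2), Function.update_of_ne (hne y h3)]
      exact h.par _ _ _ _ h1
    · obtain ⟨rfl, rfl⟩ := Prod.mk.inj h3
      rw [h1, Function.update_self, Function.update_of_ne (hne y (hT1 y h2))]
      exact hr y h2
    · obtain ⟨rfl, rfl⟩ := Prod.mk.inj h3
      rw [h1, Function.update_self, Function.update_of_ne (hne x (hT1 x h2)), add_comm (ρ x)]
      exact hr x h2

/-- extension over the side of a packing of `X1` and the legs -/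
lemma solve_tripod (h : Sys k R ρ) (σ : V → ZMod 2) (X1 X2 T : Set V) (b : V) (α : V → ℕ)
    (hT : X1 ∩ X2 = T)
    (hα : ∀ t ∈ T, ∀ t' ∈ T, t ≠ t' → sideDist k R ρ σ X2 t t' = α t + α t')
    (hsplit : ∀ x y s n, R x y (s, n) → (x ∈ X1 ∧ y ∈ X1) ∨ (x ∈ X2 ∧ y ∈ X2 ∧ s = σ x + σ y))
    {f1 : V → Finset (Fin k)}
    (h1 : Pack k (TripodRel R σ X1 T b α) f1) :
    ∃ f : V → Finset (Fin k), Pack k R f := by
  classical
  have hT2 : ∀ t ∈ T, t ∈ X2 := by intro t ht; rw [← hT] at ht; exact ht.2
  -- lengths of the legs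
  have hleg : ∀ t ∈ T, (symmDiff (sw (σ b) (f1 b)) (sw (σ t) (f1 t))).card ≤ α t := by
    intro t ht
    rcases z2 (σ b + σ t) with hs | hs
    · have e : σ b = σ t := z2_eq_of_add hs
      rw [e, card_sw_same]
      exact (h1 b t (α t)).1 (Or.inr (Or.inl ⟨rfl, ht, by rw [hs]⟩))
    · have e1 := card_sw_diff hs (f1 b) (f1 t)
      have e2 := (h1 b t (α t)).2 (Or.inr (Or.inl ⟨rfl, ht, by rw [hs]⟩))
      omega
  choose P hP0 hP1 hP2 using fun t => exists_path (sw (σ b) (f1 b)) (sw (σ t) (f1 t))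
  have hP2' : ∀ t r r' e, r ≤ r' + e → r' ≤ r + e → (symmDiff (P t r) (P t r')).card ≤ e := by
    intro t r r' e h1 h2
    rcases le_total r' r with hle | hle
    · have := hP2 t r r' hle; omega
    · have := hP2 t r' r hle
      rw [symmDiff_comm] at this; omega
  have hPb : ∀ t r, (symmDiff (P t r) (sw (σ b) (f1 b))).card ≤ r := by
    intro t r
    have := hP2 t r 0 (Nat.zero_le _)
    rw [hP0] at this; omega
  let D := sideDist k R ρ σ X2
  let g : V → Finset (Fin k) := fun v =>
    if hv : ∃ t ∈ T, D v t < α t then P hv.choose (α hv.choose - D v hv.choose)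
    else sw (σ b) (f1 b)
  have hg : ∀ v, (∃ t ∈ T, D v t < α t ∧ g v = P t (α t - D v t)) ∨
      ((∀ t ∈ T, α t ≤ D v t) ∧ g v = sw (σ b) (f1 b)) := by
    intro v
    by_cases hv : ∃ t ∈ T, D v t < α t
    · left
      refine ⟨hv.choose, hv.choose_spec.1, hv.choose_spec.2, ?_⟩
      simp only [g, dif_pos hv]
    · right
      refine ⟨?_, by simp only [g, dif_neg hv]⟩
      intro t ht
      by_contra hlt
      exact hv ⟨t, ht, by omega⟩
  have hDc : ∀ x ∈ X2, ∀ y ∈ X2, D x y = D y x := fun x hx y hy => side_comm h σ X2 hx hy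
  have hDt : ∀ x ∈ X2, ∀ y ∈ X2, ∀ z ∈ X2, D x z ≤ D x y + D y z :=
    fun x hx y hy z hz => side_tri σ X2 hx hy hz
  refine combine (ρ := ρ) σ X1 X2 hsplit (f1 := f1) ?_ g ?_ ?_
  · intro x y n
    exact ⟨fun hr => (h1 x y n).1 (Or.inl hr), fun hr => (h1 x y n).2 (Or.inl hr)⟩
  · intro x hx y hy
    show _ ≤ D x y
    rcases hg x with ⟨t, ht, hlt, e⟩ | ⟨hall, e⟩ <;> rcases hg y with ⟨t', ht', hlt', e'⟩ | ⟨hall', e'⟩
    · rw [e, e']
      by_cases htt : t = t'
      · subst htt
        have a1 := hDt x hx y hy t (hT2 t ht)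
        have a2 := hDt y hy x hx t (hT2 t ht)
        rw [hDc y hy x hx] at a2
        exact hP2' t _ _ _ (by omega) (by omega)
      · have b1 := hPb t (α t - D x t)
        have b2 := hPb t' (α t' - D y t')
        rw [symmDiff_comm] at b2
        have b3 := symmDiff_card_tri (P t (α t - D x t)) (sw (σ b) (f1 b)) (P t' (α t' - D y t'))
        have a1 := hDt t (hT2 t ht) x hx t' (hT2 t' ht')
        have a2 := hDt x hx y hy t' (hT2 t' ht')
        have a3 := hDc t (hT2 t ht) x hx
        have a4 : D t t' = α t + α t' := hα t ht t' ht' htt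
        omega
    · rw [e, e']
      have b1 := hPb t (α t - D x t)
      have a1 := hDt y hy x hx t (hT2 t ht)
      have a2 := hDc y hy x hx
      have a3 := hall' t ht
      omega
    · rw [e, e']
      have b1 := hPb t' (α t' - D y t')
      rw [symmDiff_comm] at b1
      have a1 := hDt x hx y hy t' (hT2 t' ht')
      have a3 := hall t' ht'
      omega
    · rw [e, e', symmDiff_self_card]
      exact Nat.zero_le _
  · intro t ht
    rw [hT] at ht
    have hself : D t t = 0 := side_self σ X2 t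
    have hgt : g t = sw (σ t) (f1 t) := by
      rcases hg t with ⟨t', ht', hlt, e⟩ | ⟨hall, e⟩
      · by_cases htt : t = t'
        · subst htt
          rw [e, hself, Nat.sub_zero]
          exact hP1 t _ (hleg t ht)
        · have a4 : D t t' = α t + α t' := hα t ht t' ht' htt
          omega
      · have h0 : α t = 0 := by
          have := hall t ht
          omega
        have h2 := hleg t ht
        rw [h0] at h2
        have h3 : symmDiff (sw (σ b) (f1 b)) (sw (σ t) (f1 t)) = ∅ :=
          Finset.card_eq_zero.mp (by omega)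
        rw [e]
        exact symmDiff_eq_bot.mp h3
    rw [hgt, sw_sw]

/-- The lengths of the legs. -/
lemma exists_legs (h : Sys k R ρ) (σ : V → ZMod 2) (X2 : Set V) (x y z b : V) (hx : x ∈ X2)
    (hy : y ∈ X2) (hz : z ∈ X2) :
    ∃ (α : V → ℕ) (r : ZMod 2),
      (∀ t ∈ ({x, y, z} : Set V), ∀ t' ∈ ({x, y, z} : Set V), t ≠ t' →
        sideDist k R ρ σ X2 t t' = α t + α t') ∧
      (∀ t ∈ ({x, y, z} : Set V), (α t : ZMod 2) = r + ρ t + k * (σ b + σ t)) := by
  set D := sideDist k R ρ σ X2 with hD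
  have pxy := side_par h σ X2 hx hy
  have pxz := side_par h σ X2 hx hz
  have pyz := side_par h σ X2 hy hz
  have hDc : ∀ x ∈ X2, ∀ y ∈ X2, D x y = D y x := fun x hx y hy => side_comm h σ X2 hx hy
  have hDt : ∀ x ∈ X2, ∀ y ∈ X2, ∀ z ∈ X2, D x z ≤ D x y + D y z :=
    fun x hx y hy z hz => side_tri σ X2 hx hy hz
  have hDs : ∀ x, D x x = 0 := fun x => side_self σ X2 x
  have hpar : ∀ x ∈ X2, ∀ y ∈ X2, (D x y : ZMod 2) = ρ x + ρ y + k * (σ x + σ y) :=
    fun x hx y hy => side_par h σ X2 hx hy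
  have hev : ((D x y + D x z + D y z : ℕ) : ZMod 2) = 0 := by
    push_cast
    rw [hpar x hx y hy, hpar x hx z hz, hpar y hy z hz]
    generalize ρ x = a1; generalize ρ y = a2; generalize ρ z = a3; generalize σ x = a4
    generalize σ y = a5; generalize σ z = a6; generalize (k : ZMod 2) = a7
    revert a1 a2 a3 a4 a5 a6 a7; decide
  rw [ZMod.natCast_eq_zero_iff] at hev
  obtain ⟨H, hH⟩ := hev
  refine ⟨fun t => D t x + D t y + D t z - H,
    (ρ x + ρ y + ρ z) + k * (σ x + σ y + σ z) + H + k * σ b, ?_, ?_⟩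
  · have e1 := hDc x hx y hy
    have e2 := hDc x hx z hz
    have e3 := hDc y hy z hz
    have t1 := hDt x hx y hy z hz
    have t2 := hDt x hx z hz y hy
    have t3 := hDt y hy x hx z hz
    have s1 := hDs x; have s2 := hDs y; have s3 := hDs z
    rintro t (rfl | rfl | rfl) t' (rfl | rfl | rfl) hne <;>
      first
        | exact absurd rfl hne
        | (simp only; omega)
  · intro t ht
    have htX : t ∈ X2 := by rcases ht with rfl | rfl | rfl <;> assumption
    have hle : H ≤ D t x + D t y + D t z := by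
      have e1 := hDc x hx y hy
      have e2 := hDc x hx z hz
      have e3 := hDc y hy z hz
      have t1 := hDt x hx y hy z hz
      have t2 := hDt x hx z hz y hy
      have t3 := hDt y hy x hx z hz
      have s1 := hDs x; have s2 := hDs y; have s3 := hDs z
      rcases ht with rfl | rfl | rfl <;> omega
    simp only
    rw [Nat.cast_sub hle]
    push_cast
    rw [hpar t htX x hx, hpar t htX y hy, hpar t htX z hz]
    generalize ρ x = a1; generalize ρ y = a2; generalize ρ z = a3; generalize ρ t = a4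
    generalize σ x = b1; generalize σ y = b2; generalize σ z = b3; generalize σ t = b4
    generalize σ b = b5; generalize (k : ZMod 2) = a7; generalize (H : ZMod 2) = a8
    have two : (2 : ZMod 2) = 0 := by decide
    linear_combination (a4 + b4 * a7 - b5 * a7 - a8) * two

end Pool.Agent.Helper30.Guenin
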