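import Pool.Agent.Helper30.Guenin.Defs
import Pool.Agent.Helper30.Guenin.Small
import Pool.Agent.Helper30.Guenin.Apex3
import Pool.Agent.Helper30.Guenin.Tripod

/-!
Every system supported on a built signed graph can be packed.
-/

namespace Pool.Agent.Helper30.Guenin

open Finset

/-- all systems supported on `(X, A)` can be packed -/
def Solvable {V : Type*} (X : Set V) (A : V → V → ZMod 2 → Prop) : Prop :=
  ∀ (k : ℕ), 1 ≤ k → ∀ (R : V → V → Lab → Prop) (ρ : V → ZMod 2), Sys k R ρ →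
    (∀ x y s n, R x y (s, n) → x ∈ X ∧ y ∈ X ∧ A x y s) → ∃ f : V → Finset (Fin k), Pack k R f

lemma Pack.mono {V : Type*} {k : ℕ} {R R' : V → V → Lab → Prop} {f : V → Finset (Fin k)}
    (h : Pack k R' f) (hle : ∀ x y m, R x y m → R' x y m) : Pack k R f :=
  fun x y n => ⟨fun hr => (h x y n).1 (hle _ _ _ hr), fun hr => (h x y n).2 (hle _ _ _ hr)⟩

theorem Built.solvable {V : Type*} [Finite V] {X : Set V} {A : V → V → ZMod 2 → Prop}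
    (hB : Built X A) : Solvable X A := by
  classical
  induction hB with
  | @small X A h =>
    intro k hk R ρ hS hR
    obtain ⟨R', hS', hle, hsub, hsat⟩ := exists_sat_set hk hS X (Set.toFinite X)
    obtain ⟨f, hf⟩ := pack_small hS' X (Set.toFinite X) h (by
      rintro x y ⟨s, n⟩ hr
      rcases hsub x y _ hr with hr | hr
      · exact ⟨(hR x y s n hr).1, (hR x y s n hr).2.1⟩
      · exact ⟨hr.1, hr.2.1⟩) hsat
    exact ⟨f, hf.mono hle⟩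
  | @apex X A u w h =>
    intro k hk R ρ hS hR
    refine pack_apex hS hk u w h.anti ?_ ?_
    · intro x y s n hr hx hy
      obtain ⟨h1, h2, h3⟩ := hR x y s n hr
      exact h.par x ⟨h1, hx⟩ y ⟨h2, hy⟩ s h3
    · intro n v l hn hcl
      refine h.ring n v (fun i => (l i).1) hn ⟨hcl.closed, ?_, hcl.inj⟩
      intro i hi
      obtain ⟨h1, h2, h3⟩ := hcl.step i hi
      obtain ⟨h4, h5, h6⟩ := hR _ _ (l i).1 (l i).2 h1
      exact ⟨h6, ⟨h4, h2⟩, ⟨h5, h3⟩⟩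
  | @sum X1 X2 A hT hA h1 h2 ih1 ih2 =>
    intro k hk R ρ hS hR
    obtain ⟨R', hS', hle, hsub, hsat⟩ := exists_sat_set hk hS (X1 ∩ X2) (Set.toFinite _)
    have hR' : ∀ x y s n, R' x y (s, n) → A x y s ∨ (x ∈ X1 ∩ X2 ∧ y ∈ X1 ∩ X2 ∧ x ≠ y) := by
      intro x y s n hr
      rcases hsub x y _ hr with hr | hr
      · exact Or.inl (hR x y s n hr).2.2
      · exact Or.inr hr
    have hsplit : ∀ x y m, R' x y m → (x ∈ X1 ∧ y ∈ X1) ∨ (x ∈ X2 ∧ y ∈ X2) := by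
      rintro x y ⟨s, n⟩ hr
      rcases hsub x y _ hr with hr | hr
      · obtain ⟨h3, h4, h5⟩ := hR x y s n hr
        exact hA x h3 y h4 s h5
      · exact Or.inl ⟨hr.1.1, hr.2.1.1⟩
    obtain ⟨f1, hf1⟩ := ih1 k hk (fun x y m => R' x y m ∧ x ∈ X1 ∧ y ∈ X1) ρ
      (hS'.mono (fun x y m hr => ⟨hS'.symm _ _ _ hr.1, hr.2.2, hr.2.1⟩) (fun _ _ _ hr => hr.1))
      (fun x y s n hr => ⟨hr.2.1, hr.2.2, hR' x y s n hr.1⟩)
    obtain ⟨f2, hf2⟩ := ih2 k hk (fun x y m => R' x y m ∧ x ∈ X2 ∧ y ∈ X2) ρ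
      (hS'.mono (fun x y m hr => ⟨hS'.symm _ _ _ hr.1, hr.2.2, hr.2.1⟩) (fun _ _ _ hr => hr.1))
      (fun x y s n hr => ⟨hr.2.1, hr.2.2, hR' x y s n hr.1⟩)
    obtain ⟨f, hf⟩ := glue X1 X2 hT (Set.toFinite _) hsplit hsat hf1 hf2
    exact ⟨f, hf.mono hle⟩
  | @edge X1 X2 A a b σ hT hA h1 ih1 =>
    intro k hk R ρ hS hR
    have ha : a ∈ X1 ∩ X2 := by rw [hT]; simp
    have hb : b ∈ X1 ∩ X2 := by rw [hT]; simp
    obtain ⟨f1, hf1⟩ := ih1 k hk _ ρ (sys_edge hS σ X1 X2 a b ha.2 hb.2) (by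
      rintro x y s n (⟨h2, h3, h4⟩ | ⟨h2, h3⟩)
      · exact ⟨h3, h4, Or.inl (hR x y s n h2).2.2⟩
      · obtain ⟨rfl, rfl⟩ := Prod.mk.inj h3
        rcases h2 with ⟨rfl, rfl⟩ | ⟨rfl, rfl⟩
        · exact ⟨ha.1, hb.1, Or.inr ⟨rfl, rfl⟩⟩
        · exact ⟨hb.1, ha.1, Or.inr ⟨Sym2.eq_swap, rfl⟩⟩)
    exact solve_edge hS σ X1 X2 a b hT (by
      intro x y s n hr
      obtain ⟨h3, h4, h5⟩ := hR x y s n hr
      exact hA x h3 y h4 s h5) hf1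
  | @tripod X1 X2 A x y z b σ hT hb2 hb1 hA h1 ih1 =>
    intro k hk R ρ hS hR
    have hx : x ∈ X1 ∩ X2 := by rw [hT]; simp
    have hy : y ∈ X1 ∩ X2 := by rw [hT]; simp
    have hz : z ∈ X1 ∩ X2 := by rw [hT]; simp
    obtain ⟨α, r, hα, hr⟩ := exists_legs hS σ X2 x y z b hx.2 hy.2 hz.2
    rw [← hT] at hα hr
    have hα' : ∀ t ∈ X1 ∩ X2, ∀ t' ∈ X1 ∩ X2, sideDist k R ρ σ X2 t t' ≤ α t + α t' := by
      intro t ht t' ht'
      by_cases htt : t = t'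
      · subst htt; rw [side_self]; exact Nat.zero_le _
      · exact (hα t ht t' ht' htt).le
    obtain ⟨f1, hf1⟩ := ih1 k hk _ _ (sys_tripod hS σ X1 X2 (X1 ∩ X2) b α (fun t ht => ht.1)
      (fun t ht => ht.2) hb1 hα' r hr) (by
      rintro p q s n (⟨h2, h3, h4⟩ | ⟨h2, h3, h4⟩ | ⟨h2, h3, h4⟩)
      · exact ⟨Or.inl h3, Or.inl h4, Or.inl ⟨(hR p q s n h2).2.2, h3, h4⟩⟩
      · obtain ⟨rfl, rfl⟩ := Prod.mk.inj h4
        exact ⟨Or.inr h2, Or.inl h3.1, Or.inr (Or.inl ⟨h2, h3, rfl⟩)⟩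
      · obtain ⟨rfl, rfl⟩ := Prod.mk.inj h4
        exact ⟨Or.inl h3.1, Or.inr h2, Or.inr (Or.inr ⟨h2, h3, rfl⟩)⟩)
    exact solve_tripod hS σ X1 X2 (X1 ∩ X2) b α rfl hα (by
      intro p q s n hr
      obtain ⟨h3, h4, h5⟩ := hR p q s n hr
      exact hA p h3 q h4 s h5) hf1

end Pool.Agent.Helper30.Guenin
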