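import Pool.Agent.Helper30.Guenin.Solve

/-!
From signed graphs to systems, and from packings to homomorphisms.
-/

namespace Pool.Agent.Helper30.Guenin

open Finset

variable {V E : Type*}

/-- the system of a signed graph: all edges have length one -/
def GRel (G : SGraph V E) (x y : V) (m : Lab) : Prop := G.Adj x y m.1 ∧ m.2 = 1

lemma SGraph.adj_symm (G : SGraph V E) {x y : V} {s : ZMod 2} (h : G.Adj x y s) : G.Adj y x s := by
  obtain ⟨e, h1, h2⟩ := h
  exact ⟨e, by rw [h1, Sym2.eq_swap], h2⟩

lemma SGraph.adj_ne (G : SGraph V E) {x y : V} {s : ZMod 2} (h : G.Adj x y s) : x ≠ y := by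
  obtain ⟨e, h1, _⟩ := h
  rintro rfl
  exact G.loopless e (by rw [h1]; exact Sym2.mk_isDiag_iff.mpr rfl)

/-- A predicate on labels which is closed under addition and holds for the labels of all cycles
holds for the labels of all closed walks. -/
lemma closed_of_cycles (G : SGraph V E) (P : Lab → Prop) (h0 : P 0) (h02 : P (0, 2))
    (hadd : ∀ a b, P a → P b → P (a + b))
    (hcyc : ∀ (n : ℕ) (v : ZMod n → V) (e : ZMod n → E), G.IsCycle n v e →
      P (({i | e i ∈ G.neg}.ncard : ZMod 2), n)) {x : V} {m : Lab} (hw : Walk (GRel G) x x m) :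
    P m := by
  classical
  refine closed_decomp h0 hadd ?_ hw
  intro n v l hn hsc
  have hstep := fun i (hi : i < n) => (hsc.step i hi).1
  -- the edges
  have hE : ∃ e : ℕ → E, ∀ i < n, G.ends (e i) = s(v i, v (i + 1)) ∧
      ((l i).1 = 1 ↔ e i ∈ G.neg) := by
    obtain ⟨e0, _⟩ := hstep 0 (by omega)
    have : ∀ i, ∃ e, i < n → G.ends e = s(v i, v (i + 1)) ∧ ((l i).1 = 1 ↔ e ∈ G.neg) := by
      intro i
      by_cases hi : i < n
      · obtain ⟨e, he⟩ := hstep i hi
        exact ⟨e, fun _ => he⟩
      · exact ⟨e0, fun h => absurd h hi⟩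
    choose e he using this
    exact ⟨e, he⟩
  obtain ⟨e, he⟩ := hE
  have hn1 : n ≠ 1 := by
    rintro rfl
    have := G.adj_ne (hstep 0 (by omega))
    exact this hsc.closed.symm
  have hlen : (∑ i ∈ range n, l i).2 = n := by
    rw [Prod.snd_sum]
    rw [Finset.sum_congr rfl (fun i hi => (hsc.step i (Finset.mem_range.mp hi)).2)]
    simp
  have hsgn : (∑ i ∈ range n, l i).1 = ∑ i ∈ range n, (l i).1 := Prod.fst_sum
  by_cases he01 : n = 2 ∧ e 0 = e 1
  · obtain ⟨rfl, h01⟩ := he01
    have h1 : (l 0).1 = (l 1).1 := by
      have a0 := (he 0 (by omega)).2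
      have a1 := (he 1 (by omega)).2
      rw [h01, ← a1] at a0
      rcases z2 (l 0).1 with h | h <;> rcases z2 (l 1).1 with h' | h' <;> rw [h, h'] at a0 ⊢
      · exact absurd (a0.mpr rfl) (by decide)
      · exact absurd (a0.mp rfl) (by decide)
    have h2 : (∑ i ∈ range 2, l i).1 = 0 := by
      rw [hsgn, Finset.sum_range_succ, Finset.sum_range_one, h1]
      exact z2_add_self _
    have h3 : (∑ i ∈ range 2, l i) = (0, 2) := Prod.ext h2 hlen
    rw [h3]; exact h02
  · haveI : NeZero n := ⟨by omega⟩
    have hval : ∀ i : ZMod n, v (i + 1).val = v (i.val + 1) := by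
      intro i
      have hi := ZMod.val_lt i
      rw [ZMod.val_add]
      have h1 : (1 : ZMod n).val = 1 := by
        rw [← Nat.cast_one, ZMod.val_natCast, Nat.mod_eq_of_lt (by omega)]
      rw [h1]
      rcases Nat.lt_or_ge (i.val + 1) n with h | h
      · rw [Nat.mod_eq_of_lt h]
      · have : i.val + 1 = n := by omega
        rw [this, Nat.mod_self, hsc.closed]
    have hcycle : G.IsCycle n (fun i => v i.val) (fun i => e i.val) := by
      refine ⟨by omega, ?_, ?_, ?_⟩
      · intro i j hij
        exact ZMod.val_injective n (hsc.inj _ (ZMod.val_lt i) _ (ZMod.val_lt j) hij)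
      · intro i j hij
        simp only at hij
        have hi := ZMod.val_lt i
        have hj := ZMod.val_lt j
        have a0 := (he i.val hi).1
        have a1 := (he j.val hj).1
        rw [hij, a1, Sym2.eq_iff] at a0
        rcases a0 with ⟨a0, _⟩ | ⟨a0, a2⟩
        · exact ZMod.val_injective n (hsc.inj _ hi _ hj a0.symm)
        · rw [← hval] at a0 a2
          have b0 := hsc.inj _ hj _ (ZMod.val_lt _) a0
          have b1 := hsc.inj _ (ZMod.val_lt _) _ hi a2
          have c0 := ZMod.val_injective n b0
          have c1 := ZMod.val_injective n b1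
          -- j = i + 1 and j + 1 = i
          have h2 : ((2 : ℕ) : ZMod n) = 0 := by
            rw [c0] at c1
            push_cast
            linear_combination c1
          rw [ZMod.natCast_eq_zero_iff] at h2
          have hn2 : n = 2 := by
            have := Nat.le_of_dvd (by omega) h2
            omega
          subst hn2
          by_contra hne
          apply he01
          refine ⟨rfl, ?_⟩
          have hne' : i.val ≠ j.val := fun h => hne (ZMod.val_injective 2 h)
          have : (i.val = 0 ∧ j.val = 1) ∨ (i.val = 1 ∧ j.val = 0) := by omega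
          rcases this with ⟨h3, h4⟩ | ⟨h3, h4⟩
          · rw [h3, h4] at hij; exact hij
          · rw [h3, h4] at hij; exact hij.symm
      · intro i
        show G.ends (e i.val) = s(v i.val, v (i + 1).val)
        rw [hval]
        exact (he i.val (ZMod.val_lt i)).1
    have hP := hcyc n _ _ hcycle
    have hcount : (({i : ZMod n | e i.val ∈ G.neg}.ncard : ℕ) : ZMod 2) =
        ∑ i ∈ range n, (l i).1 := by
      have e1 : ∀ i ∈ range n, (l i).1 = if e i ∈ G.neg then (1 : ZMod 2) else 0 := by
        intro i hi
        have a := (he i (Finset.mem_range.mp hi)).2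
        split_ifs with h
        · exact a.mpr h
        · rcases z2 (l i).1 with h' | h'
          · exact h'
          · exact absurd (a.mp h') h
      rw [Finset.sum_congr rfl e1, Finset.sum_boole]
      congr 1
      rw [Set.ncard_eq_toFinset_card']
      refine Finset.card_bij (fun i _ => i.val) ?_ ?_ ?_
      · intro i hi
        simp only [Set.toFinset_setOf, Finset.mem_filter, Finset.mem_univ, true_and] at hi
        simp only [Finset.mem_filter, Finset.mem_range]
        exact ⟨ZMod.val_lt i, hi⟩
      · intro i _ j _ hij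
        exact ZMod.val_injective n hij
      · intro i hi
        simp only [Finset.mem_filter, Finset.mem_range] at hi
        refine ⟨(i : ZMod n), ?_, ?_⟩
        · simp only [Set.toFinset_setOf, Finset.mem_filter, Finset.mem_univ, true_and]
          rw [ZMod.val_natCast, Nat.mod_eq_of_lt hi.1]
          exact hi.2
        · rw [ZMod.val_natCast, Nat.mod_eq_of_lt hi.1]
    rw [hcount, ← hsgn] at hP
    have : (∑ i ∈ range n, l i) = ((∑ i ∈ range n, l i).1, n) := Prod.ext rfl hlen
    rw [this]
    exact hP

lemma not_even_iff_cast (n : ℕ) : ¬ Even n ↔ (n : ZMod 2) = 1 := by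
  rw [Nat.not_even_iff_odd]
  exact (ZMod.natCast_eq_one_iff_odd).symm

lemma even_iff_cast (n : ℕ) : Even n ↔ (n : ZMod 2) = 0 := by
  exact (ZMod.natCast_eq_zero_iff_even).symm

/-- The system of a consistent signed graph of unbalanced girth `k`. -/
lemma exists_sys (G : SGraph V E) (k : ℕ) (hc : G.Consistent) (hg : G.UnbGirth k) :
    ∃ ρ : V → ZMod 2, Sys k (GRel G) ρ := by
  -- parity of closed walks
  have hpar : ∀ x m, Walk (GRel G) x x m → (m.2 : ZMod 2) = k * m.1 := by
    intro x m hw
    refine closed_of_cycles G (fun m => (m.2 : ZMod 2) = k * m.1) (by simp) ?_ ?_ ?_ hw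
    · simp only [mul_zero]; decide
    · intro a b ha hb
      simp only [Prod.snd_add, Prod.fst_add] at *
      push_cast
      rw [ha, hb]; ring
    · intro n v e hcyc
      simp only
      by_cases hb : G.Balanced e
      · have h1 := hc.1 n v e hcyc hb
        rw [SGraph.Balanced, even_iff_cast] at hb
        rw [hb, mul_zero, ← even_iff_cast]
        exact h1
      · obtain ⟨v', e', hcyc', hb'⟩ := hg.1
        have h1 := hc.2 n v e k v' e' hcyc hb hcyc' hb'
        rw [SGraph.Balanced, not_even_iff_cast] at hb
        rw [hb, mul_one, ← ZMod.natCast_mod n 2, h1, ZMod.natCast_mod]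
  have hgood : ∀ x m, Walk (GRel G) x x m → (m.1 = 1 → k ≤ m.2) := by
    intro x m hw
    refine closed_of_cycles G (fun m => (m.1 = 1 → k ≤ m.2)) (by simp) (by simp) ?_ ?_ hw
    · intro a b ha hb
      simp only [Prod.snd_add, Prod.fst_add] at *
      intro hab
      rcases z2 a.1 with h | h
      · have := hb (by rw [h] at hab; simpa using hab)
        omega
      · have := ha h
        omega
    · intro n v e hcyc
      simp only
      intro h
      exact hg.2 n v e hcyc (by rw [SGraph.Balanced, not_even_iff_cast]; exact h)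
  let φ : Lab →+ ZMod 2 :=
    { toFun := fun m => (m.2 : ZMod 2) + k * m.1
      map_zero' := by simp
      map_add' := by intro a b; simp only [Prod.snd_add, Prod.fst_add]; push_cast; ring }
  obtain ⟨ρ, hρ⟩ := exists_potential (GRel G) (fun x y m hr => ⟨m, G.adj_symm hr.1, hr.2⟩) φ (by
    intro x m hw
    show (m.2 : ZMod 2) + k * m.1 = 0
    rw [hpar x m hw]; exact z2_add_self _)
  refine ⟨ρ, ?_, ?_, ?_⟩
  · intro x y m hr
    exact ⟨G.adj_symm hr.1, hr.2⟩
  · intro x n hw
    exact hgood x (1, n) hw rfl
  · intro x y s n hr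
    have := hρ x y (s, n) hr
    have h2 : (n : ZMod 2) + k * s = ρ y - ρ x := this
    rw [z2_sub] at h2
    have h3 := z2_add_self ((k : ZMod 2) * s)
    linear_combination h2 - h3

lemma card_symmDiff_parity {k : ℕ} (A B : Finset (Fin k)) :
    ((symmDiff A B).card : ZMod 2) = A.card + B.card := by
  have h1 := Finset.card_inter_add_card_sdiff A B
  have h2 := Finset.card_inter_add_card_sdiff B A
  have h3 : (symmDiff A B).card = (A \ B).card + (B \ A).card := by
    rw [symmDiff_def]
    exact Finset.card_union_of_disjoint (by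
      rw [Finset.disjoint_left]
      intro i hi hj
      simp only [Finset.mem_sdiff] at hi hj
      exact hi.2 hj.1)
  rw [Finset.inter_comm B A] at h2
  rw [h3, ← h1, ← h2]
  push_cast
  have := z2_add_self ((A ∩ B).card : ZMod 2)
  linear_combination -this

/-- Parity correction: a packing of the unit length system can be made exact. -/
lemma exists_exact (G : SGraph V E) {k : ℕ} (hk : 1 ≤ k) {ρ : V → ZMod 2}
    (hS : Sys k (GRel G) ρ) {f : V → Finset (Fin k)} (hf : Pack k (GRel G) f) :
    ∃ g : V → Finset (Fin k), ∀ x y, (G.Adj x y 0 → (symmDiff (g x) (g y)).card = 1) ∧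
      (G.Adj x y 1 → (symmDiff (g x) (g y)).card + 1 = k) := by
  classical
  let i0 : Fin k := ⟨0, by omega⟩
  let g : V → Finset (Fin k) := fun x =>
    if ((f x).card : ZMod 2) = ρ x then f x else symmDiff (f x) {i0}
  have hgp : ∀ x, ((g x).card : ZMod 2) = ρ x := by
    intro x
    by_cases h : ((f x).card : ZMod 2) = ρ x
    · simp only [g, if_pos h, h]
    · simp only [g, if_neg h]
      rw [card_symmDiff_parity, Finset.card_singleton]
      push_cast
      rcases z2 ((f x).card : ZMod 2) with h1 | h1 <;> rcases z2 (ρ x) with h2 | h2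
      · exact absurd (h1.trans h2.symm) h
      · rw [h1, h2]; decide
      · rw [h1, h2]; decide
      · exact absurd (h1.trans h2.symm) h
  have hgd : ∀ x y, (symmDiff (g x) (g y)).card ≤ (symmDiff (f x) (f y)).card + 1 ∧
      (symmDiff (f x) (f y)).card ≤ (symmDiff (g x) (g y)).card + 1 := by
    intro x y
    have one : ∀ A : Finset (Fin k), (symmDiff A (symmDiff A {i0})).card ≤ 1 := by
      intro A
      have : symmDiff A (symmDiff A {i0}) = {i0} := by
        ext i; simp only [Finset.mem_symmDiff]; tauto
      rw [this]; simp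
    by_cases h1 : ((f x).card : ZMod 2) = ρ x <;> by_cases h2 : ((f y).card : ZMod 2) = ρ y
    · simp only [g, if_pos h1, if_pos h2]; omega
    · simp only [g, if_pos h1, if_neg h2]
      have a1 := symmDiff_card_tri (f x) (f y) (symmDiff (f y) {i0})
      have a2 := symmDiff_card_tri (f x) (symmDiff (f y) {i0}) (f y)
      have a3 := one (f y)
      have a4 := a3
      rw [symmDiff_comm] at a4
      omega
    · simp only [g, if_neg h1, if_pos h2]
      have a1 := symmDiff_card_tri (symmDiff (f x) {i0}) (f x) (f y)
      have a2 := symmDiff_card_tri (f x) (symmDiff (f x) {i0}) (f y)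
      have a3 := one (f x)
      have a4 := a3
      rw [symmDiff_comm] at a4
      omega
    · simp only [g, if_neg h1, if_neg h2]
      have : symmDiff (symmDiff (f x) {i0}) (symmDiff (f y) {i0}) = symmDiff (f x) (f y) := by
        ext i; simp only [Finset.mem_symmDiff]; tauto
      rw [this]; omega
  refine ⟨g, ?_⟩
  intro x y
  have hb := hgd x y
  have hp := card_symmDiff_parity (g x) (g y)
  rw [hgp, hgp] at hp
  constructor
  · intro ha
    have h1 := (hf x y 1).1 ⟨ha, rfl⟩
    have h2 := hS.par x y 0 1 ⟨ha, rfl⟩
    simp only [Nat.cast_one, mul_zero, add_zero] at h2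
    rw [← h2] at hp
    have h3 : ((symmDiff (g x) (g y)).card) % 2 = 1 := by
      rw [ZMod.natCast_eq_one_iff_odd] at hp
      exact Nat.odd_iff.mp hp
    omega
  · intro ha
    have h1 := (hf x y 1).2 ⟨ha, rfl⟩
    have h2 := hS.par x y 1 1 ⟨ha, rfl⟩
    simp only [Nat.cast_one, mul_one] at h2
    have h3 : (((symmDiff (g x) (g y)).card + 1 + k : ℕ) : ZMod 2) = 0 := by
      push_cast
      rw [hp]
      have h4 := z2_add_self (1 : ZMod 2)
      linear_combination -h2 + h4
    rw [ZMod.natCast_eq_zero_iff] at h3
    have h4 : (symmDiff (g x) (g y)).card ≤ k := by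
      have := Finset.card_le_univ (symmDiff (g x) (g y))
      rwa [Fintype.card_fin] at this
    omega

end Pool.Agent.Helper30.Guenin
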