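import Mathlib

/-!
Walks in a labelled relation and potentials.
-/

namespace Pool.Agent.Helper30.Guenin

open Finset

/-- Walks of a relation on `V` whose steps carry a label from an additive monoid; the label of a
walk is the sum of the labels of its steps. -/
inductive Walk {V M : Type*} [AddCommMonoid M] (R : V → V → M → Prop) : V → V → M → Prop
  | nil (x : V) : Walk R x x 0
  | cons {x y z : V} {m m' : M} : R x y m → Walk R y z m' → Walk R x z (m + m')

namespace Walk

variable {V M : Type*} [AddCommMonoid M] {R R' : V → V → M → Prop}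

lemma single {x y : V} {m : M} (h : R x y m) : Walk R x y m := by
  have := Walk.cons h (Walk.nil y)
  rwa [add_zero] at this

lemma trans {x y z : V} {m m' : M} (h : Walk R x y m) (h' : Walk R y z m') :
    Walk R x z (m + m') := by
  induction h with
  | nil x => rwa [zero_add]
  | cons h1 h2 ih => rw [add_assoc]; exact Walk.cons h1 (ih h')

lemma symm (hs : ∀ x y m, R x y m → R y x m) {x y : V} {m : M} (h : Walk R x y m) :
    Walk R y x m := by
  induction h with
  | nil x => exact Walk.nil x
  | cons h1 h2 ih => rw [add_comm]; exact ih.trans (single (hs _ _ _ h1))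

lemma mono (hs : ∀ x y m, R x y m → R' x y m) {x y : V} {m : M} (h : Walk R x y m) :
    Walk R' x y m := by
  induction h with
  | nil x => exact Walk.nil x
  | cons h1 h2 ih => exact Walk.cons (hs _ _ _ h1) ih

/-- reversal with a map on labels -/
lemma rev {N : Type*} [AddCommMonoid N] (φ : M →+ N) {S : V → V → N → Prop}
    (hs : ∀ x y m, R x y m → S y x (φ m)) {x y : V} {m : M} (h : Walk R x y m) :
    Walk S y x (φ m) := by
  induction h with
  | nil x => rw [map_zero]; exact Walk.nil x
  | cons h1 h2 ih => rw [map_add, add_comm]; exact ih.trans (single (hs _ _ _ h1))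

/-- pushing labels forward -/
lemma map {N : Type*} [AddCommMonoid N] (φ : M →+ N) {S : V → V → N → Prop}
    (hs : ∀ x y m, R x y m → S x y (φ m)) {x y : V} {m : M} (h : Walk R x y m) :
    Walk S x y (φ m) := by
  induction h with
  | nil x => rw [map_zero]; exact Walk.nil x
  | cons h1 h2 ih => rw [map_add]; exact Walk.cons (hs _ _ _ h1) ih

/-- a step either leaves the walk empty or can be taken last -/
lemma last {x y : V} {m : M} (h : Walk R x y m) :
    (x = y ∧ m = 0) ∨ ∃ z m1 m2, Walk R x z m1 ∧ R z y m2 ∧ m = m1 + m2 := by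
  induction h with
  | nil x => exact Or.inl ⟨rfl, rfl⟩
  | @cons x y z m m' h1 h2 ih =>
    right
    rcases ih with ⟨rfl, rfl⟩ | ⟨w, m1, m2, hw, hr, rfl⟩
    · exact ⟨x, 0, m, Walk.nil x, h1, by rw [add_zero, zero_add]⟩
    · exact ⟨w, m + m1, m2, Walk.cons h1 hw, hr, by rw [add_assoc]⟩

/-- an invariant carried along a walk -/
lemma invariant {P : V → Prop} (hP : ∀ x y m, R x y m → P x → P y) {x y : V} {m : M}
    (h : Walk R x y m) (hx : P x) : P y := by
  induction h with
  | nil x => exact hx
  | cons h1 h2 ih => exact ih (hP _ _ _ h1 hx)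

/-- additive functional along a walk given by a potential -/
lemma potential_eq {A : Type*} [AddCommGroup A] (φ : M →+ A) (ρ : V → A)
    (hρ : ∀ x y m, R x y m → φ m = ρ y - ρ x) {x y : V} {m : M} (h : Walk R x y m) :
    φ m = ρ y - ρ x := by
  induction h with
  | nil x => simp
  | cons h1 h2 ih => rw [map_add, hρ _ _ _ h1, ih]; abel

end Walk

/-- Existence of a potential for an additive functional vanishing on closed walks. -/
lemma exists_potential {V M A : Type*} [AddCommMonoid M] [AddCommGroup A]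
    (R : V → V → M → Prop) (hs : ∀ x y m, R x y m → ∃ m', R y x m') (φ : M →+ A)
    (hφ : ∀ x m, Walk R x x m → φ m = 0) :
    ∃ ρ : V → A, ∀ x y m, R x y m → φ m = ρ y - ρ x := by
  classical
  have hsw : ∀ x y m, Walk R x y m → ∃ m', Walk R y x m' := by
    intro x y m h
    induction h with
    | nil x => exact ⟨0, Walk.nil x⟩
    | cons h1 h2 ih =>
      obtain ⟨m1, hm1⟩ := ih
      obtain ⟨m2, hm2⟩ := hs _ _ _ h1
      exact ⟨_, hm1.trans (Walk.single hm2)⟩
  let st : Setoid V :=
    { r := fun x y => ∃ m, Walk R x y m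
      iseqv := ⟨fun x => ⟨0, Walk.nil x⟩, fun ⟨m, h⟩ => hsw _ _ _ h,
        fun ⟨m, h⟩ ⟨m', h'⟩ => ⟨_, h.trans h'⟩⟩ }
  have key : ∀ x, ∃ m, Walk R (Quotient.out (Quotient.mk st x)) x m := by
    intro x
    exact Quotient.exact (s := st) (Quotient.out_eq (Quotient.mk st x))
  choose m hm using key
  refine ⟨fun x => φ (m x), ?_⟩
  intro x y l h
  have hq : Quotient.mk st x = Quotient.mk st y := Quotient.sound ⟨l, Walk.single h⟩
  have hx := hm x
  have hy := hm y
  rw [← hq] at hy
  obtain ⟨r, hr⟩ := hsw _ _ _ hy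
  have h1 := hφ _ _ ((hx.trans (Walk.single h)).trans hr)
  have h2 := hφ _ _ (hy.trans hr)
  rw [map_add] at h2
  rw [map_add, map_add] at h1
  have e1 : φ (m x) + φ l + φ r = φ (m y) + φ r := by rw [h1, h2]
  have e2 : φ (m x) + φ l = φ (m y) := add_right_cancel e1
  show φ l = φ (m y) - φ (m x)
  rw [← e2]; abel

/-- Least potential below given values. -/
lemma exists_min_potential {V : Type*} (R : V → V → ℤ → Prop) (h : V → ℤ)
    (bdd : ∀ x, ∃ B : ℤ, ∀ z c, Walk R z x c → B ≤ h z + c) :
    ∃ q : V → ℤ, (∀ x y c, R x y c → q y ≤ q x + c) ∧ (∀ x, q x ≤ h x) ∧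
      ∀ x, ∃ z c, Walk R z x c ∧ q x = h z + c := by
  classical
  have key : ∀ x, ∃ q : ℤ, (∃ z c, Walk R z x c ∧ q = h z + c) ∧
      ∀ z c, Walk R z x c → q ≤ h z + c := by
    intro x
    obtain ⟨B, hB⟩ := bdd x
    have := Int.exists_least_of_bdd (P := fun q => ∃ z c, Walk R z x c ∧ q = h z + c)
      ⟨B, by rintro _ ⟨z, c, hw, rfl⟩; exact hB z c hw⟩ ⟨h x + 0, x, 0, Walk.nil x, rfl⟩
    obtain ⟨q, hq, hmin⟩ := this
    exact ⟨q, hq, fun z c hw => hmin _ ⟨z, c, hw, rfl⟩⟩
  choose q hq hmin using key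
  refine ⟨q, ?_, ?_, hq⟩
  · intro x y c hR
    obtain ⟨z, c', hw, he⟩ := hq x
    have := hmin y z (c' + c) (hw.trans (Walk.single hR))
    rw [he]; linarith
  · intro x
    have := hmin x x 0 (Walk.nil x)
    linarith

end Pool.Agent.Helper30.Guenin
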